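import Pool.Agent.V8H93.LK.Defs
import Pool.Agent.V8H93.PM.Defs

set_option autoImplicit false

/-!
# Motives of abelian varieties relative to an arbitrary de Rham-Betti structure: definitions
-/

open Module Matrix Pool.Agent.Y102 Pool.Agent.N208.OneM

noncomputable section

namespace Pool.Agent.V8H93.CT

open Pool.Agent.V8H93.LK (Structure InPeriodGroup)
open Pool.Agent.V8H93.PM (AbelianCentre)

section Motives

variable {g : ℕ} (A : AbVar g)

/-! ### Motives in the tensor category generated by an abelian variety -/

/-- The Betti realization of the sum of the motives `h^1(A) ^ {⊗ r i} (w i)`: families of multilinear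
forms in `r i` variables in the rational homology. -/
abbrev Tensors {s : ℕ} (r : Fin s → ℕ) : Type :=
  ∀ i : Fin s, MultilinearMap ℚ (fun _ : Fin (r i) => A.H1) ℚ

variable {A} {s n : ℕ} {r : Fin s → ℕ}

/-- `M` is the matrix of the action of the endomorphism `X` of the rational homology of `A` (as a
derivation) on the space of tensors with the basis `B`. -/
def IsLieMatrix (B : Fin n → Tensors A r) (X : EndQ A) (M : Matrix (Fin n) (Fin n) ℚ) : Prop :=
  ∀ a i v, ∑ k, B a i (Function.update v k (X (v k))) = ∑ b, M b a * B b i v

/-- The subspace with the basis `B` is the Betti realization of a direct factor of the sum of the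
motives `h^1(A) ^ {⊗ r i} (w i)`, and `P` is the matrix of the periods for the basis `B` and for
some basis of the de Rham realization over `ℚ̄`. -/
structure IsMotive (w : Fin s → ℤ) (B : Fin n → Tensors A r) (P : Matrix (Fin n) (Fin n) ℂ) :
    Prop where
  /-- `B` is a basis of a subspace -/
  basis : LinearIndependent ℚ B
  /-- the subspace is stable under `𝔤` -/
  lie : ∀ X, InLie A X → ∃ M : Matrix (Fin n) (Fin n) ℚ, IsLieMatrix B X M
  /-- the subspace is stable under the weights -/
  weight : ∃ M : Matrix (Fin n) (Fin n) ℚ, ∀ a i v,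
    ((r i : ℚ) - 2 * w i) * B a i v = ∑ b, M b a * B b i v
  /-- the de Rham realization has a basis of elements with algebraic coefficients in terms of the
  tensor products of the elements of the basis of `H^1_dR(A / ℚ̄)` -/
  deRham : ∃ c : Fin n → ∀ i : Fin s, (Fin (r i) → Fin g ⊕ Fin g) → ℂ,
    (∀ a i J, IsAlgebraic ℚ (c a i J)) ∧ ∀ a i (v : Fin (r i) → A.H1),
      ∑ J, c a i J * ∏ k, A.dR (J k) (v k) =
        (2 * Real.pi * Complex.I) ^ (w i) * ∑ b, P b a * (B b i v : ℂ)
  /-- the matrix of the periods is invertible -/
  det : P.det ≠ 0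

variable (A) in
/-- **A motive** in the tensor category generated by `h^1(A)` and the Tate motives. -/
structure Motive where
  /-- the number of summands -/
  s : ℕ
  /-- the rank -/
  n : ℕ
  /-- the degrees of the summands -/
  r : Fin s → ℕ
  /-- the Tate twists of the summands -/
  w : Fin s → ℤ
  /-- the basis of the Betti realization -/
  B : Fin n → Tensors A r
  /-- the matrix of the periods -/
  P : Matrix (Fin n) (Fin n) ℂ
  isMotive : IsMotive w B P

/-- The matrices with rational entries which act on the Betti realization of `M`. -/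
abbrev MatQ (M : Motive A) : Type := Matrix (Fin M.n) (Fin M.n) ℚ

/-- The matrices with complex entries which act on the Betti realization of `M`. -/
abbrev MatC (M : Motive A) : Type := Matrix (Fin M.n) (Fin M.n) ℂ

/-- The endomorphism `X ∈ 𝔤` of the homology of `A` acts on `M` by the matrix `N`. -/
def Acts (M : Motive A) (X : EndQ A) (N : MatQ M) : Prop := IsLieMatrix M.B X N

/-- The endomorphism `X` acts on `M` by zero. -/
def ActsZero (M : Motive A) (X : EndQ A) : Prop := Acts M X 0

/-- The endomorphisms `X` and `Y` act on `M` in the same way. -/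
def ActsSame (M : Motive A) (X Y : EndQ A) : Prop := ActsZero M (X - Y)

/-! ### Hodge groups -/

variable (A) in
/-- The Hodge structure of `H^1(A)`: the complex number `z` acts on `H_1(A, ℝ) = ℂ ^ g` by
multiplication, and on `H^1(A, ℝ)` by the transposed map, here in the basis of `H^1(A, ℚ)` which is
dual to the basis of the lattice. -/
def hodge (z : ℂ) : Matrix (Fin (2 * g)) (Fin (2 * g)) ℂ :=
  Matrix.of fun i j => ((A.lam.repr (z • A.lam i) j : ℝ) : ℂ)

/-- `R` is the matrix of the action of the complex number `z` on `M`, in the Hodge structure given by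
those of `H^1(A)` and of the Tate motives (`z` acts on `ℚ(1)` by `(z z̄)⁻¹`). -/
def IsHodgeMatrix (M : Motive A) (z : ℂ) (R : MatC M) : Prop :=
  ∀ a i (j : Fin (M.r i) → Fin (2 * g)),
    ∑ j' : Fin (M.r i) → Fin (2 * g), (∏ k, hodge A z (j k) (j' k)) *
        (M.B a i (fun k => Pi.single (j' k) 1) : ℂ) =
      (z * (starRingEnd ℂ) z) ^ (M.w i) *
        ∑ b, R b a * (M.B b i (fun k => Pi.single (j k) 1) : ℂ)

/-- The smallest algebraic group over `ℚ` which contains elements with the property `Q z`, for all
complex numbers `z` of absolute value one. -/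
def smallestGroup {R : Type} [Fintype R] [DecidableEq R] (Q : ℂ → Matrix R R ℂ → Prop) :
    Subgroup (GL R ℂ) :=
  sInf {G | LK.IsAlgebraicSubgroup G ∧ ∀ z : ℂ, ‖z‖ = 1 → ∃ x ∈ G, Q z (x : Matrix R R ℂ)}

/-- **The Hodge group** of `M`: the smallest algebraic group over `ℚ` which contains the images of the
complex numbers of absolute value one. (The Mumford-Tate group is generated by the Hodge group and
by the weight cocharacter.) -/
def hodgeGroup (M : Motive A) : Subgroup (GL (Fin M.n) ℂ) := smallestGroup (IsHodgeMatrix M)

/-! ### The sum of a structure and a motive -/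

variable {d : ℕ} (V : Structure d)

/-- Block diagonal matrices. -/
def blocks {R : Type} {R' : Type} (P : Matrix R R ℂ) (P' : Matrix R' R' ℂ) :
    Matrix (R ⊕ R') (R ⊕ R') ℂ := Matrix.fromBlocks P 0 0 P'

/-- The comparison isomorphism of `V ⊕ M`. -/
def sumPeriods (M : Motive A) : Matrix (Fin d ⊕ Fin M.n) (Fin d ⊕ Fin M.n) ℂ :=
  blocks V.matrix M.P

/-- The automorphism `1 × y` of `V ⊕ M` is in the smallest algebraic group over `ℚ` with a torsor over `ℚ̄` which
contains the comparison isomorphism of `V ⊕ M`: it is in all these groups. -/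
def InGroups (M : Motive A) (y : MatC M) : Prop := InPeriodGroup (sumPeriods V M) (blocks 1 y)

/-- **The Hodge group of `M` splits off from `V`**: let `G` be an algebraic group over `ℚ` with a torsor
over `ℚ̄` which contains the comparison isomorphism of `V ⊕ M`. Then `G` contains `1 × Hg(M)`. -/
def Splits (M : Motive A) : Prop := ∀ y ∈ hodgeGroup M, InGroups V M (y : MatC M)

/-! ### Filtrations -/

/-- A filtration of the structure `V` by `ℓ` subobjects. -/
structure Filtration (ℓ : ℕ) where
  /-- the subspaces of `ℚ ^ d` -/
  F : ℕ → Submodule ℚ (Fin d → ℚ)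
  zero : F 0 = ⊥
  top : F ℓ = ⊤
  mono : ∀ i, F i ≤ F (i + 1)
  isSub : ∀ i, V.IsSub (F i)

/-- The number `∑ i, ⌊d_i / 2⌋`, where `d_i` are the ranks of the graded pieces. -/
def Filtration.halves {V : Structure d} {ℓ : ℕ} (F : Filtration V ℓ) : ℕ :=
  ∑ i ∈ Finset.range ℓ, (finrank ℚ (F.F (i + 1)) - finrank ℚ (F.F i)) / 2

/-! ### Subspaces of the Lie algebra -/

variable (A) in
/-- The subspaces of the space of the endomorphisms of `H_1(A, ℚ)`. -/
abbrev Sub : Type := Submodule ℚ (EndQ A)

/-- `X` is an element of `K`. -/
def Mem (K : Sub A) (X : EndQ A) : Prop := X ∈ K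

/-- The dimension of `K`. -/
def dim (K : Sub A) : ℕ := finrank ℚ K

/-- The intersection of `K` and `L`. -/
def meet (K L : Sub A) : Sub A := K ⊓ L

/-- The sum of `K` and `L`. -/
def join (K L : Sub A) : Sub A := K ⊔ L

/-- The subspace spanned by the set `T`. -/
def spanOf (T : EndQ A → Prop) : Sub A := Submodule.span ℚ {X | T X}

/-- The matrix `Y` is in the complex span of `K`. -/
def InSpan (K : Sub A) (Y : Matrix (Fin (2 * g)) (Fin (2 * g)) ℂ) : Prop :=
  Y ∈ Submodule.span ℂ {Y | ∃ Z ∈ K, Y = toC A Z}

/-- The subspace `K` is closed under the replicas of its diagonalizable elements. Let `X ∈ K` be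
diagonalizable over `ℂ`, with eigenvalues in the finite set `S`, let `σ : ℂ → ℂ` be additive, and
let `Q` be a polynomial with `Q(a) = σ(a)` for all `a ∈ S`. Then the matrix `Q(X)` is in the
complex span of `K`. (All Lie algebras of algebraic groups have this property.) -/
def IsReplicaClosed (K : Sub A) : Prop :=
  ∀ X, Mem K X → ∀ (S : Finset ℂ) (σ : ℂ →+ ℂ) (Q : Polynomial ℂ),
    Polynomial.aeval (toC A X) (∏ a ∈ S, (Polynomial.X - Polynomial.C a)) = 0 →
    (∀ a ∈ S, Q.eval a = σ a) → InSpan K (Polynomial.aeval (toC A X) Q)

/-- `K` is a subspace of `𝔤`. -/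
def InLieSpace (K : Sub A) : Prop := ∀ X, Mem K X → InLie A X

variable (A) in
/-- The subspaces of `H_1(A, ℚ)`. -/
abbrev SubH : Type := Submodule ℚ A.H1

/-- The subspace `U` of the homology is stable under the elements of `K`. -/
def Stable (K : Sub A) (U : SubH A) : Prop := ∀ X ∈ K, ∀ u ∈ U, X u ∈ U

/-- `U` and `U'` are complements. -/
def Complements (U U' : SubH A) : Prop := IsCompl U U'

/-- `K` is an algebraic subalgebra of `𝔤` which acts semisimply on the homology of `A` and has the
same commutant as `𝔤`. -/
structure IsLarge (K : Sub A) : Prop where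
  le : InLieSpace K
  bracket : ∀ X Y, Mem K X → Mem K Y → Mem K (Br A X Y)
  replicas : IsReplicaClosed K
  semisimple : ∀ U, Stable K U → ∃ U', Stable K U' ∧ Complements U U'
  commutant : ∀ P, (∀ X, Mem K X → Cm A X P) → ∀ X, InLie A X → Cm A X P

variable (A)

/-- The Hodge group of `A` is determined by the endomorphisms of `A`: the Lie algebra `𝔤` has no proper
algebraic subalgebra which acts semisimply and has the same commutant. -/
def Determined : Prop := ∀ K : Sub A, IsLarge K → ∀ X, InLie A X → Mem K X

/-- The centre of `𝔤` is of abelian type. -/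
def HasAbelianCentre : Prop :=
  ∃ (Γ : Type) (_ : AddCommGroup Γ) (_ : Fintype Γ) (c : Γ) (ε : Γ → EndQ A → ℂ),
    AbelianCentre A c ε

/-- The Lie algebra `𝔤` is commutative: `A` has complex multiplication. -/
def Commutative : Prop := ∀ X Y, InLie A X → InLie A Y → Cm A X Y

/-- `A` has a direct factor `B` which is determined, and `𝔤` acts on the complement of `B` by commuting
endomorphisms: up to isogeny `A` is the product of `B` and of an abelian variety with complex
multiplication. -/
def HasDeterminedPart : Prop :=
  ∃ (g₁ : ℕ) (B : AbVar g₁) (f : B.H1 →ₗ[ℚ] A.H1) (p : A.H1 →ₗ[ℚ] B.H1),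
    IsFactor B A f p ∧ Determined B ∧ PM.CommutesOff A B f p

/-- **The abelian varieties for which the theorem is proved**: those which are determined, those with complex
multiplication and a centre of abelian type, and products of both types. -/
def Good : Prop :=
  Determined A ∨ (HasAbelianCentre A ∧ (Commutative A ∨ HasDeterminedPart A))

variable {A}

/-- The elements of `𝔱` have a common basis of eigenvectors in `H_1(A, ℂ)`, the columns of a matrix
`S`, with purely imaginary eigenvalues (`𝔱` is contained in the Lie algebra of a compact torus). -/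
def IsCompact (𝔱 : Sub A) : Prop :=
  ∃ S : Matrix (Fin (2 * g)) (Fin (2 * g)) ℂ, S.det ≠ 0 ∧ ∀ X, Mem 𝔱 X →
    ∃ y : Fin (2 * g) → ℝ, toC A X * S = S * Matrix.diagonal fun k => (y k : ℂ) * Complex.I

/-! ### The part of the Lie algebra which splits off -/

/-- The one-parameter group `exp(t N)`. -/
def expo {R : Type} [Fintype R] [DecidableEq R] (t : ℂ) (N : Matrix R R ℚ) : Matrix R R ℂ :=
  NormedSpace.exp (t • N.map fun q => (q : ℂ))

/-- `K` is a subspace of `𝔤` closed under replicas, and the one-parameter groups given by its elements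
split off from `V`: let `M` be a motive, let `N` be the matrix of the action of `X ∈ K` on `M`, and let `G`
be an algebraic group over `ℚ` with a torsor over `ℚ̄` which contains the comparison isomorphism of
`V ⊕ M`. Then `G` contains `1 × exp(t N)` for all complex numbers `t`. -/
structure SplitPart (K : Sub A) : Prop where
  le : InLieSpace K
  closed : IsReplicaClosed K
  splits : ∀ X, Mem K X → ∀ (M : Motive A) (N : MatQ M), Acts M X N →
    ∀ t : ℂ, InGroups V M (expo t N)

/-- `K` is an ideal of `𝔤`. -/
def IsIdeal (K : Sub A) : Prop := ∀ X Y, Mem K X → InLie A Y → Mem K (Br A Y X)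

/-- The codimension of `𝔱 ∩ K` in `𝔱` is at most `∑ i, ⌊d_i / 2⌋`, for all filtrations of `V`. -/
def Bounded (K 𝔱 : Sub A) : Prop :=
  ∀ (ℓ : ℕ) (F : Filtration V ℓ), dim 𝔱 ≤ dim (meet 𝔱 K) + F.halves

/-! ### Families of motives -/

section Families

variable {N : ℕ} (M : Fin N → Motive A)

/-- **The motives `M i` are independent**: the Hodge group of their sum is the product of their Hodge
groups, up to isogeny. For all `X ∈ 𝔤` and all `i` there is an element of `𝔤` which acts on `M i` in the
same way as `X`, and trivially on the other motives. -/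
def Independent : Prop :=
  ∀ X, InLie A X → ∀ i, ∃ Y, InLie A Y ∧ ActsSame (M i) X Y ∧ ∀ j, j ≠ i → ActsZero (M j) Y

/-- The motives generate the whole category: the action of `𝔤` on their sum is faithful. -/
def Faithful : Prop := ∀ X, InLie A X → (∀ i, ActsZero (M i) X) → X = 0

/-- **The motives are disjoint**: the normal algebraic subgroups of the product of the Hodge groups are
products. -/
def Disjoint : Prop :=
  ∀ K : Sub A, InLieSpace K → IsIdeal K → IsReplicaClosed K → ∀ X, Mem K X → ∀ i,
    ∃ Y, Mem K Y ∧ ActsSame (M i) X Y ∧ ∀ j, j ≠ i → ActsZero (M j) Y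

/-- `M'` is generated by the motives `M i`, `i ∉ S` (up to isogeny of the Hodge groups). -/
def Generated (S : Finset (Fin N)) (M' : Motive A) : Prop :=
  ∀ X, InLie A X → (∀ i, i ∉ S → ActsZero (M i) X) → ActsZero M' X

/-- The Hodge groups of the motives `M i`, `i ∉ S`, split off from `V`, and if the motives are disjoint,
then the Hodge groups of all motives generated by them split off. -/
def SplitsOutside (S : Finset (Fin N)) : Prop :=
  (∀ i, i ∉ S → Splits V (M i)) ∧ (Disjoint M → ∀ M', Generated M S M' → Splits V M')

end Families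

variable (A) in
/-- The Lie algebra `𝔤` (the space spanned by its elements). -/
def lieSpace : Sub A := spanOf fun X => InLie A X

/-- The elements of `𝔤` which act trivially on `M`. -/
def kernel (M : Motive A) : Sub A := spanOf fun X => InLie A X ∧ ActsZero M X

/-- The image in the Hodge group of `M` of an algebraic subgroup of the Hodge group of `A` is the whole
Hodge group of `M`, or it has codimension at least `m`. -/
def CodimAtLeast (M : Motive A) (m : ℕ) : Prop :=
  ∀ K : Sub A, InLieSpace K → IsReplicaClosed K → join K (kernel M) ≠ lieSpace A →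
    m + dim (join K (kernel M)) ≤ dim (lieSpace A)

end Motives

end Pool.Agent.V8H93.CT

end
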