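import Pool.Agent.V8H93.CS.Exp
import Pool.Agent.V8H93.PM.Conv
import Pool.Agent.V8H93.CT.Defs

set_option autoImplicit false
set_option linter.unusedSectionVars false

/-!
# Conversions
-/

open Module Function TensorProduct Matrix

noncomputable section

namespace Pool.Agent.V8H93.CT

open Pool.Agent.Y102 Pool.Agent.W516.DR Pool.Agent.H204R3.GP Pool.Agent.W516.KC
  Pool.Agent.H204R3.SP Pool.Agent.TH119.MX Pool.Agent.R917 Pool.Agent.N208.AM
  Pool.Agent.N755.CT Pool.Agent.V8H93.CS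

open Pool.Agent.V8H93.LK (Structure InPeriodGroup ContainsPeriods)
open Pool.Agent.N208.OneM (EndQ InLie InCentre Cm Br)

variable {g : ℕ} {A : AbVar g}

/-! ### Motives -/

section Mot

variable {s n : ℕ} {r : Fin s → ℕ} {w : Fin s → ℤ} {B : Fin n → Tensors A r}
  {P : Matrix (Fin n) (Fin n) ℂ}

theorem rel_iff {X : EndQ A} {N : Matrix (Fin n) (Fin n) ℚ} : Rel B X N ↔ IsLieMatrix B X N := by
  constructor
  · intro h a i v
    have h1 := congrArg (fun φ : MultilinearMap ℚ (fun _ : Fin (r i) => A.H1) ℚ => φ v) (h a i)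
    simp only [N208.AM.dact_apply, _root_.sum_apply, _root_.smul_apply, smul_eq_mul] at h1
    exact h1
  · intro h a i
    refine MultilinearMap.ext fun v => ?_
    rw [N208.AM.dact_apply, _root_.sum_apply, h a i v]
    rfl

theorem mot_of (hM : IsMotive w B P) : Mot w B P ∧ ∃ Wt, WRel w B Wt := by
  have hwr : ∀ W, (∀ a i v, ((r i : ℚ) - 2 * w i) * B a i v = ∑ b, W b a * B b i v) →
      WRel w B W := by
    intro W h a i
    refine MultilinearMap.ext fun v => ?_
    rw [_root_.smul_apply, _root_.sum_apply, smul_eq_mul, h a i v]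
    rfl
  have hwt : ∃ M, WRel w B M := by
    obtain ⟨M, h⟩ := hM.weight
    exact ⟨M, hwr M h⟩
  refine ⟨⟨hM.basis, fun X hX => ?_, hwt, hM.det, hM.deRham⟩, hwt⟩
  obtain ⟨M, h⟩ := hM.lie X hX
  exact ⟨M, rel_iff.2 h⟩

end Mot

theorem acts_iff {M : Motive A} {X : EndQ A} {N : Matrix (Fin M.n) (Fin M.n) ℚ} :
    Acts M X N ↔ Rel M.B X N := rel_iff.symm

theorem hrel_of {M : Motive A} {z : ℂ} {R : Matrix (Fin M.n) (Fin M.n) ℂ}
    (h : HRel M.w M.B z R) : IsHodgeMatrix M z R := by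
  have hb : ∀ j : Fin (2 * g), A.bas j = Pi.single j 1 := fun j => by
    unfold AbVar.bas
    rw [Pi.basisFun_apply]
  intro a i j
  have h1 := h a i j
  simp only [hb] at h1
  exact h1

theorem acts_sub {M : Motive A} {X Y : EndQ A} {N N' : Matrix (Fin M.n) (Fin M.n) ℚ}
    (h : Acts M X N) (h' : Acts M Y N') : Acts M (X - Y) (N - N') := by
  rw [acts_iff] at h h' ⊢
  have h1 := h.add (h'.smul (-1))
  have e1 : X + (-1 : ℚ) • Y = X - Y := by
    refine LinearMap.ext fun v => ?_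
    rw [LinearMap.add_apply, LinearMap.sub_apply, LinearMap.smul_apply, neg_smul, one_smul,
      sub_eq_add_neg]
  have e2 : N + (-1 : ℚ) • N' = N - N' := by rw [neg_smul, one_smul, sub_eq_add_neg]
  rwa [e1, e2] at h1

theorem acts_zero {M : Motive A} : Acts M 0 0 := by
  rw [acts_iff]
  exact Rel.zero

theorem acts_add {M : Motive A} {X Y : EndQ A} {N N' : Matrix (Fin M.n) (Fin M.n) ℚ}
    (h : Acts M X N) (h' : Acts M Y N') : Acts M (X + Y) (N + N') := by
  rw [acts_iff] at h h' ⊢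
  exact h.add h'

theorem acts_smul {M : Motive A} {X : EndQ A} {N : Matrix (Fin M.n) (Fin M.n) ℚ} (c : ℚ)
    (h : Acts M X N) : Acts M (c • X) (c • N) := by
  rw [acts_iff] at h ⊢
  exact h.smul c

/-- The elements which act trivially. -/
def ker0 (M : Motive A) : Submodule ℚ (EndQ A) where
  carrier := {X | InLie A X ∧ Acts M X 0}
  zero_mem' := ⟨A.NA.zero_mem, acts_zero⟩
  add_mem' := fun {X Y} hX hY => ⟨A.NA.add_mem hX.1 hY.1, by
    have h := acts_add hX.2 hY.2
    rwa [add_zero] at h⟩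
  smul_mem' := fun c X hX => ⟨A.NA.smul_mem c hX.1, by
    have h := acts_smul c hX.2
    rwa [smul_zero] at h⟩

theorem kernel_eq (M : Motive A) : kernel M = ker0 M := by
  unfold kernel spanOf
  exact le_antisymm (Submodule.span_le.2 fun _ h => h) Submodule.subset_span

theorem lieSpace_eq : lieSpace A = A.NA := by
  unfold lieSpace spanOf
  exact le_antisymm (Submodule.span_le.2 fun _ h => h) Submodule.subset_span

/-! ### Groups -/

variable {d : ℕ} {V : Structure d}

theorem ptV_of {M : Motive A} {G : Subgroup (GL (Fin d ⊕ Fin M.n) ℂ)}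
    (hG : LK.IsAlgebraicSubgroup G) (hP : ContainsPeriods G (sumPeriods V M)) :
    PtV V M.P {x | ∃ y ∈ G, (y : Matrix (Fin d ⊕ Fin M.n) (Fin d ⊕ Fin M.n) ℂ) = x} := by
  obtain ⟨T, hT, y, hy, hyT⟩ := hP
  have hdet : T.det ≠ 0 := by
    intro h0
    have h1 : (y : Matrix (Fin d ⊕ Fin M.n) (Fin d ⊕ Fin M.n) ℂ).det = 0 := by
      rw [hyT, Matrix.det_mul, h0, mul_zero]
    exact (Matrix.GeneralLinearGroup.det y).ne_zero h1
  obtain ⟨T', h1, h2⟩ := Pool.Agent.R917.OM.alg_inv' hT hdet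
  exact ⟨algGrp_of hG, T, T', h1, h2, y, hy, hyT⟩

end Pool.Agent.V8H93.CT

end
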