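import Pool.Agent.V8H93.CT.Fam

set_option autoImplicit false
set_option linter.unusedSectionVars false

/-!
# Compact elements
-/

open Module Function TensorProduct Matrix

noncomputable section

namespace Pool.Agent.V8H93.CT

open Pool.Agent.Y102 Pool.Agent.W516.DR Pool.Agent.H204R3.GP Pool.Agent.W516.KC
  Pool.Agent.H204R3.SP Pool.Agent.TH119.MX Pool.Agent.R917 Pool.Agent.N208.AM
  Pool.Agent.N755.CT Pool.Agent.V8H93.CS

open Pool.Agent.V8H93.LK (Structure InPeriodGroup ContainsPeriods)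
open Pool.Agent.N208.OneM (EndQ InLie InCentre Cm Br)

/-! ### Rational points -/

/-- Rational vectors near a real vector and outside of finitely many subspaces. -/
theorem exists_rational_near {m : ℕ} (r : Fin m → ℝ) {δ : ℝ} (hδ : 0 < δ) {N : ℕ}
    (W : Fin N → Submodule ℚ (Fin m → ℚ)) (hW : ∀ i, W i ≠ ⊤) :
    ∃ q : Fin m → ℚ, (∀ j, |(q j : ℝ) - r j| < δ) ∧ ∀ i, q ∉ W i := by
  classical
  obtain ⟨v, hv⟩ : ∃ v, ∀ i, v ∉ W i := by
    by_contra hcon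
    push Not at hcon
    obtain ⟨i, hi⟩ := Subspace.exists_eq_top_of_iUnion_eq_univ (p := W)
      (Set.eq_univ_of_forall fun v => Set.mem_iUnion.2 (hcon v))
    exact hW i hi
  have hq : ∀ j, ∃ q : ℚ, |(q : ℝ) - r j| < δ / 2 := fun j => by
    obtain ⟨q, hq⟩ := exists_rat_near (r j) (half_pos hδ)
    exact ⟨q, by rwa [abs_sub_comm]⟩
  choose q0 hq0 using hq
  obtain ⟨C, hC0, hC⟩ : ∃ C : ℝ, 0 < C ∧ ∀ j, |(v j : ℝ)| ≤ C := by
    refine ⟨∑ j, |(v j : ℝ)| + 1, by positivity, fun j => ?_⟩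
    have h1 := Finset.single_le_sum (f := fun j => |(v j : ℝ)|) (fun j _ => abs_nonneg _)
      (Finset.mem_univ j)
    beta_reduce at h1
    linarith
  obtain ⟨η, hη0, hη⟩ := exists_rat_btwn (show (0 : ℝ) < δ / 2 / C by positivity)
  have hη0' : (0 : ℚ) < η := by exact_mod_cast hη0
  have hfin : (⋃ i, {ε : ℚ | q0 + ε • v ∈ W i}).Finite := by
    refine Set.finite_iUnion fun i => Set.Subsingleton.finite fun ε h ε' h' => ?_
    by_contra hne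
    apply hv i
    have h1 := (W i).sub_mem h h'
    rw [add_sub_add_left_eq_sub, ← sub_smul] at h1
    have h2 := (W i).smul_mem (ε - ε')⁻¹ h1
    rwa [smul_smul, inv_mul_cancel₀ (sub_ne_zero.2 hne), one_smul] at h2
  obtain ⟨ε, hε, hε'⟩ := (Set.Ioo_infinite hη0').exists_notMem_finite hfin
  refine ⟨q0 + ε • v, fun j => ?_, fun i hi => hε' (Set.mem_iUnion.2 ⟨i, hi⟩)⟩
  have h1 : (((q0 + ε • v) j : ℚ) : ℝ) - r j = ((q0 j : ℝ) - r j) + (ε : ℝ) * (v j : ℝ) := by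
    rw [Pi.add_apply, Pi.smul_apply, smul_eq_mul]
    push_cast
    ring
  rw [h1]
  have h2 : |(ε : ℝ) * (v j : ℝ)| < δ / 2 := by
    rw [abs_mul]
    have h3 : (0 : ℝ) < ε := by exact_mod_cast hε.1
    have h4 : (ε : ℝ) < η := by exact_mod_cast hε.2
    rw [abs_of_pos h3]
    calc (ε : ℝ) * |(v j : ℝ)| ≤ ε * C := mul_le_mul_of_nonneg_left (hC j) h3.le
      _ < δ / 2 / C * C := mul_lt_mul_of_pos_right (h4.trans hη) hC0
      _ = δ / 2 := div_mul_cancel₀ _ hC0.ne'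
  calc |(q0 j : ℝ) - r j + (ε : ℝ) * (v j : ℝ)| ≤ |(q0 j : ℝ) - r j| + |(ε : ℝ) * (v j : ℝ)| :=
      abs_add_le _ _
    _ < δ / 2 + δ / 2 := add_lt_add (hq0 j) h2
    _ = δ := add_halves δ

/-! ### Forms -/

section Form

variable {g : ℕ} (A : AbVar g)

/-- Forms are bounded by the positive definite form. -/
theorem exists_bound (B : (Fin g → ℂ) →ₗ[ℝ] (Fin g → ℂ) →ₗ[ℝ] ℝ) :
    ∃ C : ℝ, 0 < C ∧ ∀ u, |B u u| ≤ C * A.PF u u := by
  have hcont : ∀ B : (Fin g → ℂ) →ₗ[ℝ] (Fin g → ℂ) →ₗ[ℝ] ℝ, Continuous fun u => B u u := by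
    intro B
    exact (LinearMap.toContinuousBilinearMap B).continuous.clm_apply continuous_id
  by_cases hne : ∃ u : Fin g → ℂ, u ≠ 0
  swap
  · push Not at hne
    refine ⟨1, one_pos, fun u => ?_⟩
    rw [hne u, map_zero, abs_zero, map_zero, mul_zero]
  have hnorm : ∀ u : Fin g → ℂ, u ≠ 0 → (‖u‖⁻¹ : ℝ) • u ∈ Metric.sphere (0 : Fin g → ℂ) 1 := by
    intro u hu
    rw [mem_sphere_zero_iff_norm, norm_smul, norm_inv, norm_norm,
      inv_mul_cancel₀ (norm_ne_zero_iff.2 hu)]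
  have hS : (Metric.sphere (0 : Fin g → ℂ) 1).Nonempty := by
    obtain ⟨u, hu⟩ := hne
    exact ⟨_, hnorm u hu⟩
  obtain ⟨u0, hu0, hmin⟩ := (isCompact_sphere (0 : Fin g → ℂ) 1).exists_isMinOn hS
    (hcont A.PF).continuousOn
  obtain ⟨u1, hu1, hmax⟩ := (isCompact_sphere (0 : Fin g → ℂ) 1).exists_isMaxOn hS
    (hcont B).abs.continuousOn
  have hc : 0 < A.PF u0 u0 := A.PF_pos (by
    intro h0
    rw [h0, mem_sphere_zero_iff_norm, norm_zero] at hu0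
    exact zero_ne_one hu0)
  refine ⟨|B u1 u1| / A.PF u0 u0 + 1, by positivity, fun u => ?_⟩
  by_cases hu : u = 0
  · rw [hu, map_zero, abs_zero, map_zero, mul_zero]
  have hn : 0 < ‖u‖ := norm_pos_iff.2 hu
  have h1 := isMinOn_iff.1 hmin _ (hnorm u hu)
  have h2 := isMaxOn_iff.1 hmax _ (hnorm u hu)
  beta_reduce at h1 h2
  have h3 : ∀ B : (Fin g → ℂ) →ₗ[ℝ] (Fin g → ℂ) →ₗ[ℝ] ℝ,
      B ((‖u‖⁻¹ : ℝ) • u) ((‖u‖⁻¹ : ℝ) • u) = (‖u‖⁻¹) ^ 2 * B u u := by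
    intro B
    simp only [map_smul, LinearMap.smul_apply, smul_eq_mul]
    ring
  rw [h3] at h1
  rw [h3, abs_mul, abs_of_nonneg (by positivity : (0 : ℝ) ≤ (‖u‖⁻¹) ^ 2)] at h2
  have h4 : |B u u| ≤ |B u1 u1| * ‖u‖ ^ 2 := by
    have h5 := mul_le_mul_of_nonneg_right h2 (by positivity : (0 : ℝ) ≤ ‖u‖ ^ 2)
    have h6 : ‖u‖⁻¹ ^ 2 * |B u u| * ‖u‖ ^ 2 = |B u u| := by field_simp
    rwa [h6] at h5
  have h5 : A.PF u0 u0 * ‖u‖ ^ 2 ≤ A.PF u u := by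
    have h5 := mul_le_mul_of_nonneg_right h1 (by positivity : (0 : ℝ) ≤ ‖u‖ ^ 2)
    have h6 : ‖u‖⁻¹ ^ 2 * A.PF u u * ‖u‖ ^ 2 = A.PF u u := by field_simp
    rwa [h6] at h5
  have h6 : 0 ≤ A.PF u u := (A.PF_pos hu).le
  calc |B u u| ≤ |B u1 u1| * ‖u‖ ^ 2 := h4
    _ = |B u1 u1| / A.PF u0 u0 * (A.PF u0 u0 * ‖u‖ ^ 2) := by field_simp
    _ ≤ |B u1 u1| / A.PF u0 u0 * A.PF u u := mul_le_mul_of_nonneg_left h5 (by positivity)
    _ ≤ (|B u1 u1| / A.PF u0 u0 + 1) * A.PF u u := by linarith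

end Form

end Pool.Agent.V8H93.CT

end
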