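import Pool.Agent.V8H93.CT.Hodge

set_option autoImplicit false
set_option linter.unusedSectionVars false

/-!
# Families of motives
-/

open Module Function TensorProduct Matrix

noncomputable section

namespace Pool.Agent.V8H93.CT

open Pool.Agent.Y102 Pool.Agent.W516.DR Pool.Agent.H204R3.GP Pool.Agent.W516.KC
  Pool.Agent.H204R3.SP Pool.Agent.TH119.MX Pool.Agent.R917 Pool.Agent.N208.AM
  Pool.Agent.N755.CT Pool.Agent.V8H93.CS

open Pool.Agent.V8H93.LK (Structure InPeriodGroup ContainsPeriods)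
open Pool.Agent.N208.OneM (EndQ InLie InCentre Cm Br)

/-! ### Linear algebra -/

section LA

variable {W : Type} [AddCommGroup W] [Module ℚ W] [FiniteDimensional ℚ W]

theorem finrank_comap {L p : Submodule ℚ W} (hp : p ≤ L) :
    finrank ℚ (p.comap L.subtype) = finrank ℚ p :=
  (Submodule.comapSubtypeEquivOfLe hp).finrank_eq

/-- Independent quotients. -/
theorem weight_bound {N : ℕ} {L K : Submodule ℚ W} (hK : K ≤ L) {k : Fin N → Submodule ℚ W}
    (hk : ∀ i, k i ≤ L) (hind : ∀ X ∈ L, ∀ i, ∃ Y ∈ L, X - Y ∈ k i ∧ ∀ j, j ≠ i → Y ∈ k j) :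
    ∑ i, (finrank ℚ L - finrank ℚ (K ⊔ k i : Submodule ℚ W)) + finrank ℚ K ≤ finrank ℚ L := by
  classical
  let f : ∀ i, L →ₗ[ℚ] W ⧸ (K ⊔ k i) := fun i => (K ⊔ k i).mkQ ∘ₗ L.subtype
  let φ : L →ₗ[ℚ] ∀ i, W ⧸ (K ⊔ k i) := LinearMap.pi f
  let ψ : (∀ i, LinearMap.range (f i)) →ₗ[ℚ] ∀ i, W ⧸ (K ⊔ k i) :=
    LinearMap.pi fun i => (LinearMap.range (f i)).subtype ∘ₗ LinearMap.proj i
  have hψ : ∀ y, ψ y ∈ LinearMap.range φ := by
    intro y
    choose x hx using fun i => (y i).2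
    choose Y hY hY1 hY2 using fun i => hind (x i) (x i).2 i
    refine ⟨∑ i, ⟨Y i, hY i⟩, ?_⟩
    funext j
    change f j (∑ i, ⟨Y i, hY i⟩) = (y j : W ⧸ (K ⊔ k j))
    rw [map_sum, Finset.sum_eq_single j, ← hx j]
    · change (K ⊔ k j).mkQ (Y j) = (K ⊔ k j).mkQ (x j)
      rw [← sub_eq_zero, ← map_sub, Submodule.mkQ_apply, Submodule.Quotient.mk_eq_zero,
        ← Submodule.neg_mem_iff, neg_sub]
      exact Submodule.mem_sup_right (hY1 j)
    · intro i _ hij
      change (K ⊔ k j).mkQ (Y i) = 0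
      rw [Submodule.mkQ_apply, Submodule.Quotient.mk_eq_zero]
      exact Submodule.mem_sup_right (hY2 i j hij.symm)
    · intro h
      exact absurd (Finset.mem_univ _) h
  have hinj : Function.Injective (ψ.codRestrict _ hψ) := by
    intro y y' h
    have h1 := congrArg Subtype.val h
    funext i
    exact Subtype.ext (congrFun h1 i)
  have h1 := LinearMap.finrank_le_finrank_of_injective hinj
  rw [Module.finrank_pi_fintype] at h1
  have h2 := LinearMap.finrank_range_add_finrank_ker φ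
  have h3 : finrank ℚ K ≤ finrank ℚ (LinearMap.ker φ) := by
    rw [← finrank_comap hK]
    refine Submodule.finrank_mono ?_
    intro x hx
    rw [LinearMap.mem_ker]
    funext i
    change (K ⊔ k i).mkQ (x : W) = 0
    rw [Submodule.mkQ_apply, Submodule.Quotient.mk_eq_zero]
    exact Submodule.mem_sup_left hx
  have h4 : ∀ i, finrank ℚ L - finrank ℚ (K ⊔ k i : Submodule ℚ W) ≤
      finrank ℚ (LinearMap.range (f i)) := by
    intro i
    have h5 := LinearMap.finrank_range_add_finrank_ker (f i)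
    have h6 : LinearMap.ker (f i) = (K ⊔ k i).comap L.subtype := by
      ext x
      rw [LinearMap.mem_ker]
      change (K ⊔ k i).mkQ (x : W) = 0 ↔ _
      rw [Submodule.mkQ_apply, Submodule.Quotient.mk_eq_zero]
      rfl
    rw [h6, finrank_comap (sup_le hK (hk i))] at h5
    omega
  have h5 := Finset.sum_le_sum fun i (_ : i ∈ (Finset.univ : Finset (Fin N))) => h4 i
  omega

end LA

variable {g : ℕ} {A : AbVar g} {d : ℕ} {V : Structure d}

theorem isReplicaClosed_KK (V : Structure d) : IsReplicaClosed (KK A V) := Pool.Agent.R917.DT.rc_iff.1 (KK_RC V)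

theorem det_of {g₁ : ℕ} {B : AbVar g₁} (h : Determined B) : Pool.Agent.R917.DT.Det B := by
  intro 𝔥 hF hRC X hX
  exact h 𝔥 ⟨fun X hX => hF.le hX, fun X Y hX hY => hF.br X hX Y hY,
    Pool.Agent.R917.DT.rc_iff.1 hRC, fun U hU => hF.semi U hU,
    fun P hP Y hY => hF.comm P hP Y hY⟩ X hX

/-- The projection is surjective for good abelian varieties. -/
theorem NA_le_of_good (h : Good A) (V : Structure d) : A.NA ≤ PP A V := by
  have hF := PP_full (A := A) V
  rcases h with h | ⟨⟨Γ, i1, i2, c, ε, h⟩, hc | ⟨g₁, B, f, p, hB, hdet, hoff⟩⟩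
  · exact det_of h (PP A V) hF (PP_RC V)
  · intro X hX
    exact CN_le V h.toAbCen.rigid ((V8H93.PM.inCentre_iff X).1 ⟨hX, fun Y hY => hc Y X hY hX⟩)
  · have hC := CN_le V h.toAbCen.rigid
    have hD : Pool.Agent.Y102.der A.NA ≤ PP A V :=
      V8H93.PM.der_le_of_fac ⟨⟨hB.inclusion.1, hB.inclusion.2⟩,
        ⟨hB.projection.1, hB.projection.2⟩, hB.split⟩ (det_of hdet)
        (fun X hX Y hY w => hoff X Y hX hY w) hF.le hF.br
        (fun D lam => (mem_PP V).2 ⟨_, _, (LL_closed V).gen D lam⟩) (PP_RC V)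
    intro X hX
    obtain ⟨Z, hZ, e, he, hXe, hc⟩ := (Pool.Agent.R917.DT.full_NA (A := A)).dec hX
    rw [hXe]
    exact Submodule.add_mem _ (hC ⟨hZ, fun Y hY => (hc Y hY).symm⟩) (hD he)

theorem CN_le_of_centre (h : HasAbelianCentre A) (V : Structure d) : A.CN ≤ PP A V := by
  obtain ⟨Γ, i1, i2, c, ε, h⟩ := h
  exact CN_le V h.toAbCen.rigid

/-! ### Splitting outside of a finite set -/

theorem splitsOutside_of (hgood : A.NA ≤ PP A V) {N : ℕ} {M : Fin N → Motive A}
    {S : Finset (Fin N)} (h : ∀ i, i ∉ S → A.NA ≤ KK A V ⊔ ker0 (M i)) :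
    SplitsOutside V M S := by
  classical
  constructor
  · intro i hi
    refine splits_of_KK fun X hX => ?_
    obtain ⟨Y, hY, Z, hZ, hYZ⟩ := Submodule.mem_sup.1 (h i hi hX)
    refine ⟨Y, hY, ?_⟩
    have h1 : X - Y = Z := by rw [← hYZ, add_sub_cancel_left]
    change ActsZero (M i) (X - Y)
    rw [h1]
    exact hZ.2
  · intro hdis M' hM'
    refine splits_of_KK fun X hX => ?_
    have key := hdis (KK A V) (fun X hX => KK_NA V hX)
      (fun X Y hX hY => KK_ideal V (hgood hY) hX) (isReplicaClosed_KK V)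
    have h1 : ∀ i, i ∉ S → ∃ Y ∈ KK A V, Acts (M i) (X - Y) 0 ∧ ∀ j, j ≠ i → Acts (M j) Y 0 := by
      intro i hi
      obtain ⟨Y, hY, Z, hZ, hYZ⟩ := Submodule.mem_sup.1 (h i hi hX)
      obtain ⟨Y', hY', h2, h3⟩ := key Y hY i
      refine ⟨Y', hY', ?_, h3⟩
      have h4 : X - Y' = Z + (Y - Y') := by rw [← hYZ]; abel
      rw [h4]
      have h5 := acts_add hZ.2 (show Acts (M i) (Y - Y') 0 from h2)
      rwa [add_zero] at h5
    choose! Y hY hY1 hY2 using h1
    refine ⟨∑ i ∈ Finset.univ \ S, Y i, Submodule.sum_mem _ fun i hi =>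
      hY i (Finset.mem_sdiff.1 hi).2, hM' _ ?_ fun i hi => ?_⟩
    · exact A.NA.sub_mem hX (Submodule.sum_mem _ fun i hi =>
        KK_NA V (hY i (Finset.mem_sdiff.1 hi).2))
    · have hi' : i ∈ Finset.univ \ S := Finset.mem_sdiff.2 ⟨Finset.mem_univ _, hi⟩
      change Acts (M i) _ 0
      rw [← Finset.add_sum_erase _ _ hi', ← sub_sub]
      have h2 : Acts (M i) (∑ j ∈ (Finset.univ \ S).erase i, Y j) 0 := by
        have h3 : (∑ j ∈ (Finset.univ \ S).erase i, Y j) ∈ ker0 (M i) := by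
          refine Submodule.sum_mem _ fun j hj => ?_
          obtain ⟨h4, h5⟩ := Finset.mem_erase.1 hj
          have h6 := (Finset.mem_sdiff.1 h5).2
          exact ⟨KK_NA V (hY j h6), hY2 j h6 i h4.symm⟩
        exact h3.2
      have h3 := acts_sub (hY1 i hi) h2
      rwa [sub_zero] at h3

/-! ### The centre -/

/-- The bound for subspaces of the centre. -/
theorem bound_CN {𝔱 : Submodule ℚ (EndQ A)} (ht : 𝔱 ≤ A.CN) (hP : 𝔱 ≤ PP A V) {ℓ : ℕ}
    (F : Filtration V ℓ) : finrank ℚ 𝔱 ≤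
      finrank ℚ (𝔱 ⊓ KK A V : Submodule ℚ (EndQ A)) + F.halves := by
  obtain ⟨m, b, χ, hb⟩ := A.exists_basis
  refine main_bound V F.zero F.top F.mono F.isSub hP b fun X hX => ?_
  refine ⟨fun k => (χ k ⟨X, A.CN_le_ZA (ht hX)⟩).im, fun k => ?_⟩
  have h1 := hb k ⟨X, A.CN_le_ZA (ht hX)⟩
  have h2 := N208.CT.re_char hb (ht hX) k
  have h3 : χ k ⟨X, A.CN_le_ZA (ht hX)⟩ =
      ((χ k ⟨X, A.CN_le_ZA (ht hX)⟩).im : ℂ) * Complex.I := by
    conv_lhs => rw [← Complex.re_add_im (χ k ⟨X, A.CN_le_ZA (ht hX)⟩), h2]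
    rw [Complex.ofReal_zero, zero_add]
  rw [← h3]
  exact h1

/-- The bound for compact tori. -/
theorem bound_compact {𝔱 : Sub A} (hS : IsCompact 𝔱) (hP : 𝔱 ≤ PP A V) {ℓ : ℕ}
    (F : Filtration V ℓ) : finrank ℚ 𝔱 ≤
      finrank ℚ (𝔱 ⊓ KK A V : Submodule ℚ (EndQ A)) + F.halves := by
  obtain ⟨S, hdet, hS⟩ := hS
  have hu : IsUnit S := (Matrix.isUnit_iff_isUnit_det S).2 (isUnit_iff_ne_zero.2 hdet)
  have hli : LinearIndependent ℂ fun k : Fin (2 * g) => S.col k :=
    Matrix.linearIndependent_cols_iff_isUnit.2 hu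
  let b : Basis (Fin (2 * g)) ℂ (Fin (2 * g) → ℂ) :=
    basisOfLinearIndependentOfCardEqFinrank' _ hli (by rw [Module.finrank_fintype_fun_eq_card])
  have hb : ∀ k, b k = S.col k := fun k => by
    rw [coe_basisOfLinearIndependentOfCardEqFinrank']
  refine main_bound V F.zero F.top F.mono F.isSub hP (b.map V8H93.PM.coords.symm) fun X hX => ?_
  obtain ⟨y, hy⟩ := hS X hX
  refine ⟨y, fun k => ?_⟩
  apply V8H93.PM.coords.injective
  rw [V8H93.PM.coords_bc, map_smul, Basis.map_apply, LinearEquiv.apply_symm_apply, hb]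
  funext i
  have h1 := congrFun (congrFun hy i) k
  rw [Matrix.mul_diagonal, Matrix.mul_apply] at h1
  change ∑ j, (X (Pi.single j 1) i : ℂ) * S j k = ((y k : ℂ) * Complex.I) * S i k
  rw [mul_comm _ (S i k), ← h1]
  rfl

/-- **Families with weights.** -/
theorem main_weights (hgood : Good A) (hcomm : Commutative A) {N : ℕ} {M : Fin N → Motive A}
    (hM : Independent M) {m : Fin N → ℕ} (hm : ∀ i, CodimAtLeast (M i) (m i)) {ℓ : ℕ}
    (F : Filtration V ℓ) : ∃ S : Finset (Fin N), ∑ i ∈ S, m i ≤ F.halves ∧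
      SplitsOutside V M S := by
  classical
  have hP := NA_le_of_good hgood V
  have hKL : KK A V ≤ A.NA := fun X hX => KK_NA V hX
  have h1 : ∑ i, (finrank ℚ A.NA - finrank ℚ (KK A V ⊔ ker0 (M i) : Submodule ℚ (EndQ A))) +
      finrank ℚ (KK A V) ≤ finrank ℚ A.NA :=
    weight_bound (L := A.NA) (K := KK A V) hKL (k := fun i => ker0 (M i))
    (fun i X hX => hX.1) (fun X hX i => by
      obtain ⟨Y, hY, h2, h3⟩ := hM X hX i
      exact ⟨Y, hY, ⟨A.NA.sub_mem hX hY, h2⟩, fun j hj => ⟨hY, h3 j hj⟩⟩)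
  have h2 : finrank ℚ A.NA ≤ finrank ℚ (KK A V) + F.halves := by
    have h3 := bound_CN (V := V) (𝔱 := A.NA)
      (fun X hX => (V8H93.PM.inCentre_iff X).1 ⟨hX, fun Y hY => hcomm Y X hY hX⟩) hP F
    rwa [inf_eq_right.2 hKL] at h3
  refine ⟨Finset.univ.filter fun i => KK A V ⊔ ker0 (M i) ≠ A.NA, ?_,
    splitsOutside_of hP fun i hi => ?_⟩
  · have h4 : ∑ i ∈ Finset.univ.filter (fun i => KK A V ⊔ ker0 (M i) ≠ A.NA), m i ≤
        ∑ i, (finrank ℚ A.NA - finrank ℚ (KK A V ⊔ ker0 (M i) : Submodule ℚ (EndQ A))) := by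
      refine (Finset.sum_le_sum fun i hi => ?_).trans (Finset.sum_le_sum_of_subset
        (Finset.subset_univ _))
      have h5 := hm i (KK A V) (fun X hX => KK_NA V hX) (isReplicaClosed_KK V)
      rw [kernel_eq, lieSpace_eq] at h5
      exact Nat.le_sub_of_add_le (h5 (Finset.mem_filter.1 hi).2)
    omega
  · by_contra hcon
    apply hi
    rw [Finset.mem_filter]
    refine ⟨Finset.mem_univ _, fun h4 => hcon ?_⟩
    rw [h4]

end Pool.Agent.V8H93.CT

end
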