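import Pool.Agent.V8H93.CT.Cpt

set_option autoImplicit false
set_option linter.unusedSectionVars false

/-!
# Compact elements of the Lie algebra
-/

open Module Function TensorProduct Matrix

noncomputable section

namespace Pool.Agent.V8H93.CT

open Pool.Agent.Y102 Pool.Agent.W516.DR Pool.Agent.H204R3.GP Pool.Agent.W516.KC
  Pool.Agent.H204R3.SP Pool.Agent.TH119.MX Pool.Agent.R917 Pool.Agent.N208.AM
  Pool.Agent.N755.CT Pool.Agent.V8H93.CS

open Pool.Agent.V8H93.LK (Structure InPeriodGroup ContainsPeriods)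
open Pool.Agent.N208.OneM (EndQ InLie InCentre Cm Br)

variable {g : ℕ} {A : AbVar g}

theorem ext_sum {t : ℕ} (q : Fin t → ℚ) (X : Fin t → EndQ A) :
    A.ext (∑ j, q j • X j) = ∑ j, (q j : ℝ) • A.ext (X j) := by
  refine A.ext_per fun w => ?_
  rw [A.ext_apply, LinearMap.sum_apply, LinearMap.sum_apply, map_sum]
  refine Finset.sum_congr rfl fun j _ => ?_
  rw [LinearMap.smul_apply, LinearMap.smul_apply, A.ext_apply, map_smul]
  exact AbVar.rat_smul _ _

/-- The element `X` is compact: the symmetric form `E(u, X v)` is positive definite. -/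
def Cpt (X : EndQ A) : Prop := X ∈ A.NA ∧ ∀ u, u ≠ 0 → 0 < A.E u (A.ext X u)

/-- The complex structure as a combination of a basis of the Lie algebra. -/
theorem exists_JJ (A : AbVar g) : ∃ (t : ℕ) (X : Fin t → EndQ A) (r : Fin t → ℝ),
    (∀ j, X j ∈ A.NA) ∧ (∀ Y ∈ A.NA, ∃ κ : Fin t → ℚ, Y = ∑ j, κ j • X j) ∧
      (AbVar.JJ : (Fin g → ℂ) →ₗ[ℝ] (Fin g → ℂ)) = ∑ j, r j • A.ext (X j) := by
  classical
  obtain ⟨t, X, hX, hX'⟩ := exists_bas A.NA
  obtain ⟨s, hs⟩ := JJ_eq (A := A)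
  have hXN : ∀ k, A.cmpE ((Basis.ofVectorSpace ℚ ℝ).coord k) AbVar.JJ ∈ A.NA :=
    fun k => A.MA_le_NA (A.J_mem _)
  choose κ hκ using fun k => hX' _ (hXN k)
  refine ⟨t, X, fun j => ∑ k ∈ s, (Basis.ofVectorSpace ℚ ℝ k) * (κ k j : ℝ), hX, hX', ?_⟩
  rw [hs]
  simp only [Finset.sum_smul]
  rw [Finset.sum_comm]
  refine Finset.sum_congr rfl fun k _ => ?_
  conv_lhs => rw [hκ k]
  rw [ext_sum, Finset.smul_sum]
  exact Finset.sum_congr rfl fun j _ => smul_smul _ _ _

/-- **Compact elements** outside of finitely many subspaces. -/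
theorem exists_cpt (A : AbVar g) {N : ℕ} (W : Fin N → Submodule ℚ (EndQ A))
    (hW : ∀ i, ¬ A.NA ≤ W i) : ∃ X : EndQ A, Cpt X ∧ ∀ i, X ∉ W i := by
  classical
  obtain ⟨t, X, r, hX, hX', hJ⟩ := exists_JJ A
  let B : Fin t → (Fin g → ℂ) →ₗ[ℝ] (Fin g → ℂ) →ₗ[ℝ] ℝ :=
    fun j => (A.E.flip.comp (A.ext (X j))).flip
  have hB : ∀ j u v, B j u v = A.E u (A.ext (X j) v) := fun _ _ _ => rfl
  choose C hC0 hC using fun j => exists_bound A (B j)
  let Φ : (Fin t → ℚ) →ₗ[ℚ] EndQ A := Fintype.linearCombination ℚ X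
  have hΦ : ∀ q, Φ q = ∑ j, q j • X j := fun q => Fintype.linearCombination_apply ℚ X q
  obtain ⟨q, hq, hqW⟩ := exists_rational_near r (δ := (∑ j, C j + 1)⁻¹)
    (inv_pos.2 (add_pos_of_nonneg_of_pos (Finset.sum_nonneg fun j _ => (hC0 j).le) one_pos))
    (fun i => (W i).comap Φ) (fun i h => hW i fun Y hY => by
      obtain ⟨κ, hκ⟩ := hX' Y hY
      have h1 : κ ∈ (W i).comap Φ := by
        rw [h]
        trivial
      rw [Submodule.mem_comap, hΦ, ← hκ] at h1
      exact h1)
  refine ⟨Φ q, ⟨?_, fun u hu => ?_⟩, hqW⟩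
  · rw [hΦ]
    exact Submodule.sum_mem _ fun j _ => Submodule.smul_mem _ _ (hX j)
  · rw [hΦ, ext_sum, LinearMap.sum_apply, map_sum]
    have h1 : A.PF u u = ∑ j, r j * B j u u := by
      rw [A.PF_apply, ← AbVar.JJ_apply, hJ, LinearMap.sum_apply, map_sum]
      refine Finset.sum_congr rfl fun j _ => ?_
      rw [LinearMap.smul_apply, map_smul, smul_eq_mul, hB]
    have h2 : ∑ j, A.E u (((q j : ℝ) • A.ext (X j)) u) =
        A.PF u u + ∑ j, ((q j : ℝ) - r j) * B j u u := by
      rw [h1, ← Finset.sum_add_distrib]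
      refine Finset.sum_congr rfl fun j _ => ?_
      rw [LinearMap.smul_apply, map_smul, smul_eq_mul, hB]
      ring
    rw [h2]
    have hpos := A.PF_pos hu
    have hS : 0 < ∑ j, C j + 1 :=
      add_pos_of_nonneg_of_pos (Finset.sum_nonneg fun j _ => (hC0 j).le) one_pos
    have h3 : |∑ j, ((q j : ℝ) - r j) * B j u u| ≤ (∑ j, C j + 1)⁻¹ * (∑ j, C j) * A.PF u u := by
      refine (Finset.abs_sum_le_sum_abs _ _).trans ?_
      rw [mul_assoc, Finset.sum_mul, Finset.mul_sum]
      refine Finset.sum_le_sum fun j _ => ?_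
      rw [abs_mul]
      exact mul_le_mul (hq j).le (hC j u) (abs_nonneg _) (inv_pos.2 hS).le
    have h4 : (∑ j, C j + 1)⁻¹ * (∑ j, C j) < 1 := by
      rw [inv_mul_lt_iff₀ hS]
      linarith
    have h5 : (∑ j, C j + 1)⁻¹ * (∑ j, C j) * A.PF u u < 1 * A.PF u u :=
      mul_lt_mul_of_pos_right h4 hpos
    have h6 := (abs_le.1 h3).1
    linarith

/-! ### The elements which commute with a compact element -/

section Comm

variable {X Y : EndQ A}

theorem E_skew (hY : Y ∈ A.NA) (u v : Fin g → ℂ) : A.E (A.ext Y u) v = -A.E u (A.ext Y v) := by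
  have hs := A.NA_skew hY
  have h2 : A.E.comp (A.ext Y) = -(A.E.flip.comp (A.ext Y)).flip := by
    refine A.ext_per fun u => A.ext_per fun v => ?_
    change A.E (A.ext Y (A.per u)) (A.per v) = -A.E (A.per u) (A.ext Y (A.per v))
    rw [A.ext_apply, A.ext_apply, ← A.om_coe, ← A.om_coe, ← Rat.cast_neg]
    congr 1
    linear_combination hs u v
  exact congrArg (fun F : (Fin g → ℂ) →ₗ[ℝ] (Fin g → ℂ) →ₗ[ℝ] ℝ => F u v) h2

theorem ext_comm (hc : Y * X = X * Y) (u : Fin g → ℂ) :
    A.ext Y (A.ext X u) = A.ext X (A.ext Y u) := by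
  have h1 := congrArg (fun Z : EndQ A => A.ext Z u) hc
  beta_reduce at h1
  rw [AbVar.ext_mul, AbVar.ext_mul] at h1
  exact h1

/-- The eigenvalues are purely imaginary. -/
theorem re_cpt (hX : Cpt X) (hY : Y ∈ A.NA) (hc : Y * X = X * Y) {v : Fin (2 * g) → ℂ}
    (hv : v ≠ 0) {z : ℂ} (h : (Pool.Agent.Y102.toC Y).mulVec v = z • v) : z.re = 0 := by
  let q : (Fin g → ℂ) →ₗ[ℝ] (Fin g → ℂ) →ₗ[ℝ] ℝ := (A.E.flip.comp (A.ext X)).flip
  have hq : ∀ u v, q u v = A.E u (A.ext X v) := fun _ _ => rfl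
  have hqpos : ∀ u, u ≠ 0 → 0 < q u u := hX.2
  have hqsymm : ∀ u v, q u v = q v u := by
    intro u v
    rw [hq, hq, A.E_anti u, E_skew hX.1, neg_neg]
  let M := A.ext Y
  have hqM : ∀ u v, q (M u) v = -q u (M v) := by
    intro u v
    rw [hq, hq]
    change A.E (A.ext Y u) (A.ext X v) = -A.E u (A.ext X (A.ext Y v))
    rw [E_skew hY, ext_comm hc]
  have hP0 : ∀ u, q (M u) u = 0 := by
    intro u
    have h1 := hqM u u
    rw [hqsymm u (M u)] at h1
    linarith
  have hMl : ∀ j, M (A.lam j) = ∑ i, ((Y (Pi.single j 1) i : ℚ) : ℝ) • A.lam i := by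
    intro j
    change A.ext Y (A.lam j) = _
    rw [← A.per_bas, A.ext_apply]
    conv_lhs => rw [← A.lam.sum_repr (A.per (Y (A.bas j)))]
    refine Finset.sum_congr rfl fun i _ => ?_
    rw [A.repr_per]
    congr 2
    unfold AbVar.bas
    rw [Pi.basisFun_apply]
  have hMr : ∀ f : Fin (2 * g) → ℝ, M (∑ j, f j • A.lam j) =
      ∑ i, (∑ j, ((Y (Pi.single j 1) i : ℚ) : ℝ) * f j) • A.lam i := by
    intro f
    rw [map_sum]
    have h1 : ∀ j, M (f j • A.lam j) =
        ∑ i, (((Y (Pi.single j 1) i : ℚ) : ℝ) * f j) • A.lam i := by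
      intro j
      rw [map_smul, hMl, Finset.smul_sum]
      refine Finset.sum_congr rfl fun i _ => ?_
      rw [smul_smul, mul_comm]
    rw [Finset.sum_congr rfl fun j _ => h1 j, Finset.sum_comm]
    refine Finset.sum_congr rfl fun i _ => ?_
    rw [Finset.sum_smul]
  have hc' : ∀ i, ∑ j, ((Y (Pi.single j 1) i : ℚ) : ℂ) * v j = z * v i := by
    intro i
    exact congrFun h i
  have hre : ∀ i, ∑ j, ((Y (Pi.single j 1) i : ℚ) : ℝ) * (v j).re =
      z.re * (v i).re - z.im * (v i).im := by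
    intro i
    have h1 := congrArg Complex.re (hc' i)
    rw [Complex.re_sum, Complex.mul_re] at h1
    rw [← h1]
    refine Finset.sum_congr rfl fun j _ => ?_
    rw [Complex.mul_re, Complex.ratCast_re, Complex.ratCast_im, zero_mul, sub_zero]
  have him : ∀ i, ∑ j, ((Y (Pi.single j 1) i : ℚ) : ℝ) * (v j).im =
      z.re * (v i).im + z.im * (v i).re := by
    intro i
    have h1 := congrArg Complex.im (hc' i)
    rw [Complex.im_sum, Complex.mul_im] at h1
    rw [← h1]
    refine Finset.sum_congr rfl fun j _ => ?_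
    rw [Complex.mul_im, Complex.ratCast_re, Complex.ratCast_im, zero_mul, add_zero]
  obtain ⟨a, ha⟩ : ∃ a, a = ∑ j, (v j).re • A.lam j := ⟨_, rfl⟩
  obtain ⟨b, hb⟩ : ∃ b, b = ∑ j, (v j).im • A.lam j := ⟨_, rfl⟩
  have hMa : M a = z.re • a - z.im • b := by
    rw [ha, hb, hMr, Finset.smul_sum, Finset.smul_sum, ← Finset.sum_sub_distrib]
    refine Finset.sum_congr rfl fun i _ => ?_
    rw [hre, smul_smul, smul_smul, ← sub_smul]
  have hMb : M b = z.re • b + z.im • a := by
    rw [ha, hb, hMr, Finset.smul_sum, Finset.smul_sum, ← Finset.sum_add_distrib]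
    refine Finset.sum_congr rfl fun i _ => ?_
    rw [him, smul_smul, smul_smul, ← add_smul]
  have h1 := hP0 a
  have h2 := hP0 b
  rw [hMa, map_sub, LinearMap.sub_apply, map_smul, map_smul, LinearMap.smul_apply,
    LinearMap.smul_apply, smul_eq_mul, smul_eq_mul] at h1
  rw [hMb, map_add, LinearMap.add_apply, map_smul, map_smul, LinearMap.smul_apply,
    LinearMap.smul_apply, smul_eq_mul, smul_eq_mul, hqsymm a b] at h2
  have h3 : z.re * (q a a + q b b) = 0 := by linarith
  refine (mul_eq_zero.1 h3).resolve_right ?_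
  have hnn : ∀ u, 0 ≤ q u u := by
    intro u
    by_cases hu : u = 0
    · rw [hu, map_zero]
    · exact (hqpos u hu).le
  intro h4
  have h5 : a = 0 := by
    by_contra hne
    linarith [hqpos a hne, hnn b]
  have h6 : b = 0 := by
    by_contra hne
    linarith [hqpos b hne, hnn a]
  apply hv
  funext j
  have h7 := Fintype.linearIndependent_iff.1 A.lam.linearIndependent _ (ha.symm.trans h5) j
  have h8 := Fintype.linearIndependent_iff.1 A.lam.linearIndependent _ (hb.symm.trans h6) j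
  exact Complex.ext h7 h8

/-- Adjoints of polynomials. -/
theorem adj_aeval {W : Type} [AddCommGroup W] [Module ℚ W] (Q : W →ₗ[ℚ] W →ₗ[ℚ] ℚ)
    {Y Y' : Module.End ℚ W} (h : ∀ u v, Q (Y u) v = Q u (Y' v)) (p : Polynomial ℚ) :
    ∀ u v, Q (Polynomial.aeval Y p u) v = Q u (Polynomial.aeval Y' p v) := by
  have hpow : ∀ (k : ℕ) (u v : W), Q ((Y ^ k) u) v = Q u ((Y' ^ k) v) := by
    intro k
    induction k with
    | zero => exact fun _ _ => rfl
    | succ k ih =>
      intro u v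
      rw [pow_succ, pow_succ', Module.End.mul_apply, Module.End.mul_apply, ih, h]
  induction p using Polynomial.induction_on' with
  | add p q hp hq =>
    intro u v
    rw [map_add, map_add, LinearMap.add_apply, LinearMap.add_apply, map_add, map_add,
      LinearMap.add_apply, hp, hq]
  | monomial k a =>
    intro u v
    rw [Polynomial.aeval_monomial, Polynomial.aeval_monomial, Module.End.mul_apply,
      Module.End.mul_apply, Module.algebraMap_end_apply, Module.algebraMap_end_apply, map_smul,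
      map_smul, LinearMap.smul_apply, hpow]

/-- The elements are semisimple. -/
theorem reduced_cpt (hX : Cpt X) (hY : Y ∈ A.NA) (hc : Y * X = X * Y) (p : Polynomial ℚ)
    (h : Polynomial.aeval Y p * Polynomial.aeval Y p = 0) : Polynomial.aeval Y p = 0 := by
  let Q : A.H1 →ₗ[ℚ] A.H1 →ₗ[ℚ] ℚ := (A.om.flip.comp X).flip
  have hQ : ∀ u v, Q u v = A.om u (X v) := fun _ _ => rfl
  have hpos : ∀ u, Q u u = 0 → u = 0 := by
    intro u hu
    by_contra hne
    have h1 : A.per u ≠ 0 := fun h0 => hne (A.per_inj (h0.trans (map_zero _).symm))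
    have h2 := hX.2 _ h1
    rw [A.ext_apply, ← A.om_coe] at h2
    have h3 : (0 : ℚ) < A.om u (X u) := by exact_mod_cast h2
    rw [hQ] at hu
    exact h3.ne' hu
  have hskew : ∀ u v, Q (Y u) v = Q u ((-Y) v) := by
    intro u v
    have h1 := A.NA_skew hY u (X v)
    have h2 : Y (X v) = X (Y v) := congrArg (fun Z : EndQ A => Z v) hc
    rw [hQ, hQ, LinearMap.neg_apply, map_neg, map_neg, ← h2]
    linarith
  have hskew' : ∀ u v, Q ((-Y) u) v = Q u (Y v) := by
    intro u v
    have h1 := hskew u v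
    rw [LinearMap.neg_apply, map_neg] at h1
    rw [LinearMap.neg_apply, map_neg, LinearMap.neg_apply, h1, neg_neg]
  obtain ⟨T, hT⟩ : ∃ T, T = Polynomial.aeval Y p := ⟨_, rfl⟩
  obtain ⟨T', hT'⟩ : ∃ T', T' = Polynomial.aeval (-Y) p := ⟨_, rfl⟩
  have h1 : ∀ u v, Q (T u) v = Q u (T' v) := by
    rw [hT, hT']
    exact adj_aeval Q hskew p
  have h2 : ∀ u v, Q (T' u) v = Q u (T v) := by
    rw [hT, hT']
    exact adj_aeval Q hskew' p
  have hcomm : T * T' = T' * T := by
    rw [hT, hT']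
    have h3 : Commute Y (-Y) := (Commute.refl Y).neg_right
    have h4 : Commute (Polynomial.aeval Y p) (-Y) := by
      have h5 := Algebra.commute_of_mem_adjoin_singleton_of_commute
        (Polynomial.aeval_mem_adjoin_singleton ℚ Y (p := p)) h3.symm
      exact h5.symm
    have h5 := Algebra.commute_of_mem_adjoin_singleton_of_commute
        (Polynomial.aeval_mem_adjoin_singleton ℚ (-Y) (p := p)) h4
    exact h5
  rw [← hT] at h ⊢
  have hTT : ∀ u, T (T u) = 0 := fun u => congrArg (fun Z : EndQ A => Z u) h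
  have hcu : ∀ u, T (T' u) = T' (T u) := fun u => congrArg (fun Z : EndQ A => Z u) hcomm
  refine LinearMap.ext fun u => ?_
  rw [LinearMap.zero_apply]
  apply hpos
  rw [h1]
  have h3 : T' (T u) = 0 := by
    apply hpos
    rw [h2, hcu, hTT, map_zero, map_zero]
  rw [h3, map_zero]

end Comm

end Pool.Agent.V8H93.CT

end
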