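import Pool.Agent.V8H93.CT.Conv

set_option autoImplicit false
set_option linter.unusedSectionVars false

/-!
# Hodge groups in the groups
-/

open Module Function TensorProduct Matrix

noncomputable section

namespace Pool.Agent.V8H93.CT

open Pool.Agent.Y102 Pool.Agent.W516.DR Pool.Agent.H204R3.GP Pool.Agent.W516.KC
  Pool.Agent.H204R3.SP Pool.Agent.TH119.MX Pool.Agent.R917 Pool.Agent.N208.AM
  Pool.Agent.N755.CT Pool.Agent.V8H93.CS

open Pool.Agent.V8H93.LK (Structure InPeriodGroup ContainsPeriods)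
open Pool.Agent.N208.OneM (EndQ InLie InCentre Cm Br)

/-! ### The embedding -/

section Emb

variable {d n : ℕ}

theorem one_blk_mul (x y : Matrix (Fin n) (Fin n) ℂ) :
    (Matrix.fromBlocks 1 0 0 x : Matrix (Fin d ⊕ Fin n) (Fin d ⊕ Fin n) ℂ) *
      Matrix.fromBlocks 1 0 0 y = Matrix.fromBlocks 1 0 0 (x * y) := by
  rw [Matrix.fromBlocks_multiply]
  simp

variable (d n) in
/-- The embedding of the automorphisms of the motive. -/
def emb : GL (Fin n) ℂ →* GL (Fin d ⊕ Fin n) ℂ where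
  toFun y := ⟨Matrix.fromBlocks 1 0 0 (y : Matrix (Fin n) (Fin n) ℂ),
    Matrix.fromBlocks 1 0 0 ((y⁻¹ : GL (Fin n) ℂ) : Matrix (Fin n) (Fin n) ℂ),
    by rw [one_blk_mul, ← Units.val_mul, mul_inv_cancel, Units.val_one, Matrix.fromBlocks_one],
    by rw [one_blk_mul, ← Units.val_mul, inv_mul_cancel, Units.val_one, Matrix.fromBlocks_one]⟩
  map_one' := by
    apply Units.ext
    exact Matrix.fromBlocks_one
  map_mul' x y := by
    apply Units.ext
    exact (one_blk_mul _ _).symm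

theorem emb_coe (y : GL (Fin n) ℂ) : ((emb d n y : GL (Fin d ⊕ Fin n) ℂ) :
    Matrix (Fin d ⊕ Fin n) (Fin d ⊕ Fin n) ℂ) = Matrix.fromBlocks 1 0 0 (y : Matrix (Fin n) (Fin n) ℂ) :=
  rfl

/-- The entries of the embedding. -/
def sub : (Fin d ⊕ Fin n) × (Fin d ⊕ Fin n) → MvPolynomial (Fin n × Fin n) ℚ
  | (Sum.inl i, Sum.inl j) => if i = j then 1 else 0
  | (Sum.inl _, Sum.inr _) => 0
  | (Sum.inr _, Sum.inl _) => 0
  | (Sum.inr i, Sum.inr j) => MvPolynomial.X (i, j)

/-- The inverse image of an algebraic group. -/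
theorem comap_alg {G : Subgroup (GL (Fin d ⊕ Fin n) ℂ)} (hG : LK.IsAlgebraicSubgroup G) :
    LK.IsAlgebraicSubgroup (G.comap (emb d n)) := by
  obtain ⟨I, hI⟩ := hG
  refine ⟨(MvPolynomial.aeval (sub (d := d) (n := n))) '' I, fun x => ?_⟩
  rw [Subgroup.mem_comap, hI]
  have key : ∀ p : MvPolynomial ((Fin d ⊕ Fin n) × (Fin d ⊕ Fin n)) ℚ,
      MvPolynomial.aeval (fun b : Fin n × Fin n => (x : Matrix (Fin n) (Fin n) ℂ) b.1 b.2)
        (MvPolynomial.aeval (sub (d := d) (n := n)) p) =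
      MvPolynomial.aeval (fun b : (Fin d ⊕ Fin n) × (Fin d ⊕ Fin n) =>
        ((emb d n x : GL (Fin d ⊕ Fin n) ℂ) : Matrix (Fin d ⊕ Fin n) (Fin d ⊕ Fin n) ℂ) b.1 b.2) p := by
    intro p
    rw [← AlgHom.comp_apply, MvPolynomial.comp_aeval]
    congr 2
    funext b
    rw [emb_coe]
    obtain ⟨i | i, j | j⟩ := b
    · change MvPolynomial.aeval _ (if i = j then (1 : MvPolynomial (Fin n × Fin n) ℚ) else 0) =
        (1 : Matrix (Fin d) (Fin d) ℂ) i j
      rw [Matrix.one_apply]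
      split_ifs
      · exact map_one _
      · exact map_zero _
    · exact map_zero _
    · exact map_zero _
    · exact MvPolynomial.aeval_X _ _
  constructor
  · rintro h _ ⟨p, hp, rfl⟩
    rw [key]
    exact h p hp
  · intro h p hp
    rw [← key]
    exact h _ ⟨p, hp, rfl⟩

end Emb

variable {g : ℕ} {A : AbVar g} {d : ℕ} {V : Structure d}

/-- The Hodge group of the motive is in the groups if the Hodge matrices are. -/
theorem splits_of {M : Motive A}
    (h : ∀ G : Subgroup (GL (Fin d ⊕ Fin M.n) ℂ), LK.IsAlgebraicSubgroup G →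
      ContainsPeriods G (sumPeriods V M) → ∀ z : ℂ, ‖z‖ = 1 →
        ∃ R : Matrix (Fin M.n) (Fin M.n) ℂ, IsHodgeMatrix M z R ∧
          ∃ y ∈ G, (y : Matrix (Fin d ⊕ Fin M.n) (Fin d ⊕ Fin M.n) ℂ) =
            Matrix.fromBlocks 1 0 0 R) : Splits V M := by
  intro y hy G hG hP
  have h1 : hodgeGroup M ≤ G.comap (emb d M.n) := by
    unfold hodgeGroup smallestGroup
    refine sInf_le ⟨comap_alg hG, fun z hz => ?_⟩
    obtain ⟨R, hR, u, hu, huR⟩ := h G hG hP z hz
    have hdet : IsUnit R.det := by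
      have h2 := Matrix.isUnits_det_units u
      rw [huR, Matrix.det_fromBlocks_zero₂₁, Matrix.det_one, one_mul] at h2
      exact h2
    refine ⟨Matrix.GeneralLinearGroup.mk'' R hdet, ?_, hR⟩
    rw [Subgroup.mem_comap]
    have h3 : emb d M.n (Matrix.GeneralLinearGroup.mk'' R hdet) = u := by
      apply Units.ext
      rw [huR]
      rfl
    rw [h3]
    exact hu
  exact ⟨emb d M.n y, h1 hy, rfl⟩

/-- The Hodge group splits off if the Lie algebra splits off. -/
theorem splits_of_stab {M : Motive A}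
    (h : ∀ G : Subgroup (GL (Fin d ⊕ Fin M.n) ℂ), LK.IsAlgebraicSubgroup G →
      ContainsPeriods G (sumPeriods V M) → ∀ X, InLie A X → ∀ N, Acts M X N → ∀ k,
        Stab {x | ∃ y ∈ G, (y : Matrix (Fin d ⊕ Fin M.n) (Fin d ⊕ Fin M.n) ℂ) = x} k
          (blk 0 (cq N))) : Splits V M := by
  classical
  obtain ⟨hM, Wt, hW⟩ := mot_of M.isMotive
  obtain ⟨N, hN⟩ : ∃ N, RelR M.B AbVar.JJ N := by
    obtain ⟨N, hN, -⟩ := exists_J hM
    exact ⟨N, hN⟩
  refine splits_of fun G hG hP z hz => ?_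
  have hH := ptV_of hG hP
  have hz0 : z ≠ 0 := fun h0 => by
    rw [h0, norm_zero] at hz
    exact zero_ne_one hz
  refine ⟨NormedSpace.exp (Pool.Agent.N208.AM.KK Wt N z), hrel_of (hrel_exp hW hN hz0), ?_⟩
  obtain ⟨t, ht⟩ := JJ_eq (A := A)
  have hXN : ∀ k, InLie A (A.cmpE ((Basis.ofVectorSpace ℚ ℝ).coord k) AbVar.JJ) :=
    fun k => A.MA_le_NA (A.J_mem _)
  choose Mk hMk using fun k => hM.st _ (hXN k)
  have h1 : RelR M.B AbVar.JJ (∑ k ∈ t, (Basis.ofVectorSpace ℚ ℝ k) •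
      (Mk k).map fun q => (q : ℝ)) := by
    rw [ht]
    exact RelR.sum t fun k _ => (hMk k).real.smul _
  have h2 := hN.uniq hM.li h1
  have h3 : cxm N = ∑ k ∈ t, ((Basis.ofVectorSpace ℚ ℝ k : ℝ) : ℂ) • cq (Mk k) := by
    rw [h2]
    ext i j
    unfold cxm
    rw [Matrix.map_apply, Matrix.sum_apply, Matrix.sum_apply]
    push_cast
    refine Finset.sum_congr rfl fun k _ => ?_
    simp [cq]
  have h4 : ∀ k, Stab {x | ∃ y ∈ G, (y : Matrix (Fin d ⊕ Fin M.n) (Fin d ⊕ Fin M.n) ℂ) = x} k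
      (blk 0 (cxm N)) := by
    intro k
    have h5 : blk (0 : Matrix (Fin d) (Fin d) ℂ) (cxm N) =
        ∑ k ∈ t, ((Basis.ofVectorSpace ℚ ℝ k : ℝ) : ℂ) •
          blk (0 : Matrix (Fin d) (Fin d) ℂ) (cq (Mk k)) := by
      rw [h3]
      have h6 := blk_sum t (fun _ => (0 : Matrix (Fin d) (Fin d) ℂ))
        (fun k => ((Basis.ofVectorSpace ℚ ℝ k : ℝ) : ℂ) • cq (Mk k))
      rw [Finset.sum_const_zero] at h6
      rw [h6]
      refine Finset.sum_congr rfl fun k _ => ?_
      rw [← blk_smul, smul_zero]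
    rw [h5]
    exact stab_sum t fun i _ => (h G hG hP _ (hXN i) _ (acts_iff.2 (hMk i)) k).smul _
  have h7 : Pool.Agent.N208.AM.KK Wt N z = (Complex.arg z : ℂ) • cxm N := by
    unfold Pool.Agent.N208.AM.KK
    rw [hz, Real.log_one, Complex.ofReal_zero, zero_smul, zero_add]
  have h8 := exp_mem hH.grp fun k => (h4 k).smul (Complex.arg z : ℂ)
  rw [← blk_smul, smul_zero, exp_blk, NormedSpace.exp_zero, ← h7] at h8
  exact h8

/-- The Hodge group splits off if all elements of the Lie algebra act as elements of the split part. -/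
theorem splits_of_KK {M : Motive A} (h : ∀ X, InLie A X → ∃ Y ∈ KK A V, ActsSame M X Y) :
    Splits V M := by
  obtain ⟨hM, Wt, hW⟩ := mot_of M.isMotive
  refine splits_of_stab fun G hG hP X hX N hN k => ?_
  obtain ⟨Y, hY, hXY⟩ := h X hX
  have h1 : Acts M Y N := by
    have h2 := acts_sub hN hXY
    rwa [sub_sub_cancel, sub_zero] at h2
  exact stab_K hM hW (ptV_of hG hP) hY (acts_iff.1 h1) k

/-- The Hodge group splits off if the complex structure is in the split part. -/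
theorem splits_of_JC {M : Motive A} (h : InC (LL A V) 0 (JC A) 0) : Splits V M := by
  obtain ⟨hM, Wt, hW⟩ := mot_of M.isMotive
  obtain ⟨N, hN⟩ : ∃ N, RelR M.B AbVar.JJ N := by
    obtain ⟨N, hN, -⟩ := exists_J hM
    exact ⟨N, hN⟩
  refine splits_of fun G hG hP z hz => ?_
  obtain ⟨h1, h2⟩ := hodge_split hM hW (ptV_of hG hP) h hN hz
  exact ⟨_, hrel_of h2, h1⟩

end Pool.Agent.V8H93.CT

end
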