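import Pool.Agent.V8H93.LK.Sharp
import Pool.Agent.V8H93.CT.Defs

set_option autoImplicit false
set_option linter.unusedSectionVars false

/-!
# The bound is optimal
-/

open Module Matrix

noncomputable section

namespace Pool.Agent.V8H93.CT

open Pool.Agent.Y102
open Pool.Agent.V8H93.LK (Structure InPeriodGroup ContainsPeriods ofMatrix matrix_ofMatrix)

/-! ### Commutants -/

section Comm

variable {R : Type} [Fintype R] [DecidableEq R]

/-- The group of the matrices which commute with a rational matrix. -/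
def commGroup (E : Matrix R R ℚ) : Subgroup (GL R ℂ) where
  carrier := {x | (x : Matrix R R ℂ) * E.map (algebraMap ℚ ℂ) = E.map (algebraMap ℚ ℂ) * x}
  one_mem' := by
    change ((1 : GL R ℂ) : Matrix R R ℂ) * _ = _
    rw [Units.val_one, one_mul, mul_one]
  mul_mem' := fun {x y} hx hy => by
    change ((x * y : GL R ℂ) : Matrix R R ℂ) * _ = _ * ((x * y : GL R ℂ) : Matrix R R ℂ)
    rw [Units.val_mul, mul_assoc, show (y : Matrix R R ℂ) * E.map (algebraMap ℚ ℂ) = _ from hy,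
      ← mul_assoc, show (x : Matrix R R ℂ) * E.map (algebraMap ℚ ℂ) = _ from hx, mul_assoc]
  inv_mem' := fun {x} hx => by
    change ((x⁻¹ : GL R ℂ) : Matrix R R ℂ) * _ = _ * ((x⁻¹ : GL R ℂ) : Matrix R R ℂ)
    have hx' : (x : Matrix R R ℂ) * E.map (algebraMap ℚ ℂ) = E.map (algebraMap ℚ ℂ) * x := hx
    have h1 : ((x⁻¹ : GL R ℂ) : Matrix R R ℂ) * (x : Matrix R R ℂ) = 1 := x.inv_val
    have h2 : (x : Matrix R R ℂ) * ((x⁻¹ : GL R ℂ) : Matrix R R ℂ) = 1 := x.val_inv
    calc ((x⁻¹ : GL R ℂ) : Matrix R R ℂ) * E.map (algebraMap ℚ ℂ) =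
        ((x⁻¹ : GL R ℂ) : Matrix R R ℂ) * (E.map (algebraMap ℚ ℂ) *
          (x * ((x⁻¹ : GL R ℂ) : Matrix R R ℂ))) := by rw [h2, mul_one]
      _ = ((x⁻¹ : GL R ℂ) : Matrix R R ℂ) * ((E.map (algebraMap ℚ ℂ) * x) *
          ((x⁻¹ : GL R ℂ) : Matrix R R ℂ)) := by rw [mul_assoc (E.map _)]
      _ = ((x⁻¹ : GL R ℂ) : Matrix R R ℂ) * (x * (E.map (algebraMap ℚ ℂ) *
          ((x⁻¹ : GL R ℂ) : Matrix R R ℂ))) := by rw [← hx', mul_assoc (x : Matrix R R ℂ)]
      _ = E.map (algebraMap ℚ ℂ) * ((x⁻¹ : GL R ℂ) : Matrix R R ℂ) := by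
        rw [← mul_assoc, h1, one_mul]

theorem mem_commGroup {E : Matrix R R ℚ} {x : GL R ℂ} : x ∈ commGroup E ↔
    (x : Matrix R R ℂ) * E.map (algebraMap ℚ ℂ) = E.map (algebraMap ℚ ℂ) * x := Iff.rfl

/-- The group is algebraic. -/
theorem commGroup_alg (E : Matrix R R ℚ) : LK.IsAlgebraicSubgroup (commGroup E) := by
  refine ⟨Set.range fun b : R × R => ∑ k, MvPolynomial.X (b.1, k) * MvPolynomial.C (E k b.2) -
    ∑ k, MvPolynomial.C (E b.1 k) * MvPolynomial.X (k, b.2), fun x => ?_⟩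
  rw [mem_commGroup]
  have key : ∀ b : R × R, MvPolynomial.aeval (fun b : R × R => (x : Matrix R R ℂ) b.1 b.2)
      (∑ k, MvPolynomial.X (b.1, k) * MvPolynomial.C (E k b.2) -
        ∑ k, MvPolynomial.C (E b.1 k) * MvPolynomial.X (k, b.2) : MvPolynomial (R × R) ℚ) =
      ((x : Matrix R R ℂ) * E.map (algebraMap ℚ ℂ)) b.1 b.2 -
        (E.map (algebraMap ℚ ℂ) * (x : Matrix R R ℂ)) b.1 b.2 := by
    intro b
    rw [map_sub, map_sum, map_sum, Matrix.mul_apply, Matrix.mul_apply]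
    congr 1
    · refine Finset.sum_congr rfl fun k _ => ?_
      rw [map_mul, MvPolynomial.aeval_X, MvPolynomial.aeval_C, Matrix.map_apply]
    · refine Finset.sum_congr rfl fun k _ => ?_
      rw [map_mul, MvPolynomial.aeval_X, MvPolynomial.aeval_C, Matrix.map_apply]
  constructor
  · rintro h _ ⟨b, rfl⟩
    rw [key, h, sub_self]
  · intro h
    ext i j
    have h1 := h _ ⟨(i, j), rfl⟩
    rw [key] at h1
    exact sub_eq_zero.1 h1

end Comm

/-! ### The structure given by a sum of motives -/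

variable {g : ℕ} {A : AbVar g} {N : ℕ} (M : Fin N → Motive A)

/-- The indices. -/
def ee : (Σ i, Fin (M i).n) ≃ Fin (∑ i, (M i).n) := finSigmaFinEquiv

/-- The inclusion. -/
def inc (i : Fin N) : Matrix (Fin (∑ i, (M i).n)) (Fin (M i).n) ℚ :=
  Matrix.of fun j k => if j = ee M ⟨i, k⟩ then 1 else 0

/-- Block diagonal matrices. -/
def bd (P : ∀ i, Matrix (Fin (M i).n) (Fin (M i).n) ℂ) :
    Matrix (Fin (∑ i, (M i).n)) (Fin (∑ i, (M i).n)) ℂ :=
  (Matrix.blockDiagonal' P).reindex (ee M) (ee M)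

theorem bd_mul (P P' : ∀ i, Matrix (Fin (M i).n) (Fin (M i).n) ℂ) :
    bd M P * bd M P' = bd M fun i => P i * P' i := by
  unfold bd
  rw [Matrix.blockDiagonal'_mul]
  exact Matrix.submatrix_mul_equiv _ _ _ _ _

theorem bd_one : bd M (fun _ => 1) = 1 := by
  unfold bd
  have h : Matrix.blockDiagonal' (fun i : Fin N => (1 : Matrix (Fin (M i).n) (Fin (M i).n) ℂ)) = 1 :=
    Matrix.blockDiagonal'_one
  rw [h]
  exact Matrix.submatrix_one_equiv _

theorem bd_inc (P : ∀ i, Matrix (Fin (M i).n) (Fin (M i).n) ℂ) (i : Fin N) :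
    bd M P * (inc M i).map (algebraMap ℚ ℂ) = (inc M i).map (algebraMap ℚ ℂ) * P i := by
  ext j k
  obtain ⟨⟨i', j'⟩, rfl⟩ := (ee M).surjective j
  rw [Matrix.mul_apply, Matrix.mul_apply, Finset.sum_eq_single (ee M ⟨i, k⟩)]
  · change (Matrix.blockDiagonal' P) ((ee M).symm (ee M ⟨i', j'⟩)) ((ee M).symm (ee M ⟨i, k⟩)) *
      algebraMap ℚ ℂ (if ee M ⟨i, k⟩ = ee M ⟨i, k⟩ then 1 else 0) = _
    rw [if_pos rfl, map_one, mul_one, Equiv.symm_apply_apply, Equiv.symm_apply_apply]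
    by_cases h : i' = i
    · subst h
      rw [Matrix.blockDiagonal'_apply_eq, Finset.sum_eq_single j']
      · change _ = algebraMap ℚ ℂ (if ee M ⟨i', j'⟩ = ee M ⟨i', j'⟩ then 1 else 0) * _
        rw [if_pos rfl, map_one, one_mul]
      · intro l _ hl
        change algebraMap ℚ ℂ (if ee M ⟨i', j'⟩ = ee M ⟨i', l⟩ then 1 else 0) * _ = 0
        rw [if_neg, map_zero, zero_mul]
        intro h1
        have h2 := (ee M).injective h1
        apply hl
        rw [Sigma.mk.injEq] at h2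
        exact (eq_of_heq h2.2).symm
      · intro h
        exact absurd (Finset.mem_univ _) h
    · rw [Matrix.blockDiagonal'_apply_ne _ _ _ h]
      refine (Finset.sum_eq_zero fun l _ => ?_).symm
      change algebraMap ℚ ℂ (if ee M ⟨i', j'⟩ = ee M ⟨i, l⟩ then 1 else 0) * _ = 0
      rw [if_neg, map_zero, zero_mul]
      intro h1
      exact h (congrArg Sigma.fst ((ee M).injective h1))
  · intro l _ hl
    change _ * algebraMap ℚ ℂ (if l = ee M ⟨i, k⟩ then 1 else 0) = 0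
    rw [if_neg hl, map_zero, mul_zero]
  · intro h
    exact absurd (Finset.mem_univ _) h

theorem inc_inj {i : Fin N} {y : Matrix (Fin (M i).n) (Fin (M i).n) ℂ}
    (h : (inc M i).map (algebraMap ℚ ℂ) = (inc M i).map (algebraMap ℚ ℂ) * y) : y = 1 := by
  ext j k
  have h1 := congrFun (congrFun h (ee M ⟨i, j⟩)) k
  rw [Matrix.mul_apply, Finset.sum_eq_single j] at h1
  · change algebraMap ℚ ℂ (if ee M ⟨i, j⟩ = ee M ⟨i, k⟩ then 1 else 0) =
      algebraMap ℚ ℂ (if ee M ⟨i, j⟩ = ee M ⟨i, j⟩ then 1 else 0) * y j k at h1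
    rw [if_pos rfl, map_one, one_mul] at h1
    rw [← h1, Matrix.one_apply]
    by_cases hjk : j = k
    · rw [hjk, if_pos rfl, if_pos rfl, map_one]
    · rw [if_neg hjk, if_neg, map_zero]
      intro h2
      have h3 := (ee M).injective h2
      apply hjk
      rw [Sigma.mk.injEq] at h3
      exact eq_of_heq h3.2
  · intro l _ hl
    change algebraMap ℚ ℂ (if ee M ⟨i, j⟩ = ee M ⟨i, l⟩ then 1 else 0) * _ = 0
    rw [if_neg, map_zero, zero_mul]
    intro h1
    have h2 := (ee M).injective h1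
    apply hl
    rw [Sigma.mk.injEq] at h2
    exact (eq_of_heq h2.2).symm
  · intro h
    exact absurd (Finset.mem_univ _) h

/-- **The sum of the motives.** -/
theorem sharp : ∃ V : Structure (∑ i, (M i).n), ∀ i, Splits V (M i) → hodgeGroup (M i) = ⊥ := by
  have hu : ∀ i, IsUnit (M i).P.det := fun i => isUnit_iff_ne_zero.2 (M i).isMotive.det
  have h1 : bd M (fun i => (M i).P⁻¹) * bd M (fun i => (M i).P) = 1 := by
    rw [bd_mul, ← bd_one M]
    congr 1
    funext i
    exact Matrix.nonsing_inv_mul _ (hu i)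
  have h1' : bd M (fun i => (M i).P) * bd M (fun i => (M i).P⁻¹) = 1 := by
    rw [bd_mul, ← bd_one M]
    congr 1
    funext i
    exact Matrix.mul_nonsing_inv _ (hu i)
  refine ⟨ofMatrix _ _ h1, fun i hs => ?_⟩
  rw [eq_bot_iff]
  intro y hy
  let E : Matrix (Fin (∑ i, (M i).n) ⊕ Fin (M i).n) (Fin (∑ i, (M i).n) ⊕ Fin (M i).n) ℚ :=
    Matrix.fromBlocks 0 (inc M i) 0 0
  have hE : E.map (algebraMap ℚ ℂ) = Matrix.fromBlocks 0 ((inc M i).map (algebraMap ℚ ℂ)) 0 0 := by
    change (Matrix.fromBlocks 0 (inc M i) 0 0).map (algebraMap ℚ ℂ) = _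
    rw [Matrix.fromBlocks_map, Matrix.map_zero _ (map_zero _), Matrix.map_zero _ (map_zero _),
      Matrix.map_zero _ (map_zero _)]
  have h2 : sumPeriods (ofMatrix _ _ h1) (M i) *
      Matrix.fromBlocks (bd M fun i => (M i).P⁻¹) 0 0 (M i).P⁻¹ = 1 := by
    unfold sumPeriods blocks
    rw [matrix_ofMatrix, Matrix.fromBlocks_multiply]
    simp only [Matrix.mul_zero, Matrix.zero_mul, add_zero, zero_add]
    rw [h1', Matrix.mul_nonsing_inv _ (hu i), Matrix.fromBlocks_one]
  have h3 : Matrix.fromBlocks (bd M fun i => (M i).P⁻¹) 0 0 (M i).P⁻¹ *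
      sumPeriods (ofMatrix _ _ h1) (M i) = 1 := by
    unfold sumPeriods blocks
    rw [matrix_ofMatrix, Matrix.fromBlocks_multiply]
    simp only [Matrix.mul_zero, Matrix.zero_mul, add_zero, zero_add]
    rw [h1, Matrix.nonsing_inv_mul _ (hu i), Matrix.fromBlocks_one]
  obtain ⟨u, hu1, hu2⟩ := hs y hy (commGroup E) (commGroup_alg E)
    ⟨1, fun j k => by
      rw [Matrix.one_apply]
      split_ifs
      · exact isAlgebraic_one
      · exact isAlgebraic_zero, ⟨_, _, h2, h3⟩, by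
      rw [mem_commGroup]
      change sumPeriods (ofMatrix _ _ h1) (M i) * _ = _ * sumPeriods (ofMatrix _ _ h1) (M i)
      rw [hE]
      unfold sumPeriods blocks
      rw [matrix_ofMatrix, Matrix.fromBlocks_multiply, Matrix.fromBlocks_multiply]
      simp only [Matrix.mul_zero, Matrix.zero_mul, add_zero, zero_add]
      rw [bd_inc], by rw [mul_one]⟩
  rw [mem_commGroup, hu2, hE] at hu1
  unfold blocks at hu1
  rw [Matrix.fromBlocks_multiply, Matrix.fromBlocks_multiply, Matrix.fromBlocks_inj] at hu1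
  have h4 := hu1.2.1
  simp only [Matrix.mul_zero, add_zero, zero_add] at h4
  rw [Matrix.one_mul] at h4
  rw [Subgroup.mem_bot]
  apply Units.ext
  rw [Units.val_one]
  refine inc_inj M (i := i) ?_
  exact h4

end Pool.Agent.V8H93.CT

end
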