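import Pool.Agent.V8H93.CT.Defs

set_option autoImplicit false
set_option linter.unusedSectionVars false

/-!
# The trivial filtration
-/

open Module Matrix

noncomputable section

namespace Pool.Agent.V8H93.CT

open Pool.Agent.V8H93.LK (Structure Qbar)

variable {d : ℕ} (V : Structure d)

theorem isSub_bot : V.IsSub ⊥ := by
  unfold Structure.IsSub Pool.Agent.W516.DR.IsDeRhamBettiSubspace
  have h1 : Submodule.span Qbar (Set.range fun (i : Fin d) (u : (⊥ : Submodule ℚ (Fin d → ℚ))) =>
      V.dR i u) = ⊥ := by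
    rw [eq_bot_iff, Submodule.span_le]
    rintro _ ⟨i, rfl⟩
    rw [SetLike.mem_coe, Submodule.mem_bot]
    funext u
    have h2 : (u : Fin d → ℚ) = 0 := (Submodule.mem_bot ℚ).1 u.2
    change V.dR i (u : Fin d → ℚ) = 0
    rw [h2, map_zero]
  rw [h1, finrank_bot, finrank_bot]

theorem isSub_top : V.IsSub ⊤ := by
  unfold Structure.IsSub Pool.Agent.W516.DR.IsDeRhamBettiSubspace
  have h1 : LinearIndependent Qbar (fun (i : Fin d) (u : (⊤ : Submodule ℚ (Fin d → ℚ))) =>
      V.dR i u) := by
    rw [Fintype.linearIndependent_iff]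
    intro c hc i
    have h2 := Fintype.linearIndependent_iff.1 V.indep (fun i => (c i : ℂ)) (by
      refine LinearMap.ext fun u => ?_
      have h3 := congrFun hc ⟨u, trivial⟩
      rw [Finset.sum_apply, Pi.zero_apply] at h3
      rw [LinearMap.sum_apply, LinearMap.zero_apply, ← h3]
      exact Finset.sum_congr rfl fun j _ => rfl) i
    exact Subtype.ext h2
  rw [finrank_span_eq_card h1, finrank_top, Module.finrank_fintype_fun_eq_card]

/-- The trivial filtration. -/
def triv : Filtration V 1 where
  F := fun i => if i = 0 then ⊥ else ⊤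
  zero := if_pos rfl
  top := if_neg one_ne_zero
  mono := fun i => by
    rw [if_neg (Nat.succ_ne_zero i)]
    exact le_top
  isSub := fun i => by
    split_ifs
    · exact isSub_bot V
    · exact isSub_top V

theorem halves_triv : (triv V).halves = d / 2 := by
  unfold Filtration.halves
  rw [Finset.sum_range_one]
  change (finrank ℚ (if (0 : ℕ) + 1 = 0 then (⊥ : Submodule ℚ (Fin d → ℚ)) else ⊤ :
    Submodule ℚ (Fin d → ℚ)) - finrank ℚ (if (0 : ℕ) = 0 then (⊥ : Submodule ℚ (Fin d → ℚ)) else ⊤ :
    Submodule ℚ (Fin d → ℚ))) / 2 = d / 2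
  rw [if_neg (Nat.succ_ne_zero 0), if_pos rfl, finrank_top, finrank_bot, Nat.sub_zero,
    Module.finrank_fintype_fun_eq_card, Fintype.card_fin]

theorem exists_triv : ∃ F : Filtration V 1, F.halves = d / 2 := ⟨triv V, halves_triv V⟩

end Pool.Agent.V8H93.CT

end
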