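import Pool.Agent.V8H93.CT.Gen
import Pool.Agent.V8H93.CT.Triv
import Pool.Agent.V8H93.CT.Sharp

set_option autoImplicit false
set_option linter.unusedSectionVars false

/-!
# The main theorem
-/

open Module Function TensorProduct Matrix

noncomputable section

namespace Pool.Agent.V8H93.CT

open Pool.Agent.Y102 Pool.Agent.W516.DR Pool.Agent.H204R3.GP Pool.Agent.W516.KC
  Pool.Agent.H204R3.SP Pool.Agent.TH119.MX Pool.Agent.R917 Pool.Agent.N208.AM
  Pool.Agent.N755.CT Pool.Agent.V8H93.CS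

open Pool.Agent.V8H93.LK (Structure InPeriodGroup ContainsPeriods)
open Pool.Agent.N208.OneM (EndQ InLie InCentre Cm Br)

variable {g : ℕ} {A : AbVar g} {d : ℕ} {V : Structure d}

/-- The bound for spaces of commuting elements which commute with a compact element. -/
theorem bound_cpt {X : EndQ A} (hX : Cpt X) {𝔱 : Submodule ℚ (EndQ A)} (hN : 𝔱 ≤ A.NA)
    (hc : ∀ Y ∈ 𝔱, ∀ Z ∈ 𝔱, Y * Z = Z * Y) (hcX : ∀ Y ∈ 𝔱, Y * X = X * Y)
    (hP : 𝔱 ≤ PP A V) {ℓ : ℕ} (F : Filtration V ℓ) : finrank ℚ 𝔱 ≤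
      finrank ℚ (𝔱 ⊓ KK A V : Submodule ℚ (EndQ A)) + F.halves := by
  obtain ⟨n, b, hb⟩ := exists_joint_basis
    (fun R : 𝔱 => (R : Module.End ℚ A.H1).baseChange ℂ) (fun R R' => by
      change (R : Module.End ℚ A.H1).baseChange ℂ ∘ₗ (R' : Module.End ℚ A.H1).baseChange ℂ =
        (R' : Module.End ℚ A.H1).baseChange ℂ ∘ₗ (R : Module.End ℚ A.H1).baseChange ℂ
      rw [← LinearMap.baseChange_comp, ← LinearMap.baseChange_comp]
      congr 1
      exact hc _ R.2 _ R'.2)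
    (fun R => semisimple_of_reduced _ fun p => reduced_cpt hX (hN R.2) (hcX _ R.2) p)
  choose c hc using hb
  refine main_bound V F.zero F.top F.mono F.isSub hP b fun Y hY => ?_
  refine ⟨fun k => (c k ⟨Y, hY⟩).im, fun k => ?_⟩
  have h1 := hc k ⟨Y, hY⟩
  have h2 : (c k ⟨Y, hY⟩).re = 0 := by
    have h0 : (R918.eqv (2 * g)).symm (b k) ≠ 0 := by
      intro h
      exact b.ne_zero k ((LinearEquiv.map_eq_zero_iff _).1 h)
    refine re_cpt hX (hN hY) (hcX _ hY) h0 (z := c k ⟨Y, hY⟩) ?_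
    apply (R918.eqv (2 * g)).injective
    rw [← R918.matE_eqv, matE_toC, map_smul, LinearEquiv.apply_symm_apply]
    exact h1
  have h3 : c k ⟨Y, hY⟩ = ((c k ⟨Y, hY⟩).im : ℂ) * Complex.I := by
    conv_lhs => rw [← Complex.re_add_im (c k ⟨Y, hY⟩), h2]
    rw [Complex.ofReal_zero, zero_add]
  rw [← h3]
  exact h1

theorem acts_mul {M : Motive A} {X Y : EndQ A} {N N' : Matrix (Fin M.n) (Fin M.n) ℚ}
    (h : Acts M X N) (h' : Acts M Y N') : Acts M (X * Y - Y * X) (N' * N - N * N') := by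
  rw [acts_iff] at h h' ⊢
  exact h.br h'

/-- **Families of motives, the general case.** -/
theorem main_count (hgood : Good A) {N : ℕ} {M : Fin N → Motive A}
    (hM : Independent M) (hf : Faithful M) {ℓ : ℕ} (F : Filtration V ℓ) :
    ∃ S : Finset (Fin N), S.card ≤ F.halves ∧ SplitsOutside V M S := by
  classical
  have hP := NA_le_of_good hgood V
  obtain ⟨S, hS⟩ : ∃ S : Finset (Fin N), S = Finset.univ.filter fun i =>
    ¬ A.NA ≤ KK A V ⊔ ker0 (M i) := ⟨_, rfl⟩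
  have hmem : ∀ i, i ∈ S ↔ ¬ A.NA ≤ KK A V ⊔ ker0 (M i) := by
    intro i
    rw [hS, Finset.mem_filter]
    exact ⟨fun h => h.2, fun h => ⟨Finset.mem_univ _, h⟩⟩
  refine ⟨S, ?_, splitsOutside_of hP fun i hi => by
    by_contra hcon
    exact hi ((hmem i).2 hcon)⟩
  -- a compact element
  obtain ⟨X, hX, hXW⟩ := exists_cpt A (N := S.card)
    (fun k => KK A V ⊔ ker0 (M (S.orderEmbOfFin rfl k))) fun k =>
      (hmem _).1 (Finset.orderEmbOfFin_mem S rfl k)
  have hXS : ∀ i ∈ S, X ∉ KK A V ⊔ ker0 (M i) := by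
    intro i hi
    obtain ⟨k, hk⟩ : ∃ k, S.orderEmbOfFin rfl k = i := by
      have h1 := Finset.range_orderEmbOfFin S rfl
      have h2 : i ∈ Set.range (S.orderEmbOfFin rfl) := by
        rw [h1]
        exact hi
      exact h2
    rw [← hk]
    exact hXW k
  -- its components
  choose Y hY hY1 hY2 using fun i => hM X hX.1 i
  have hYc : ∀ i j, Y i * Y j = Y j * Y i := by
    intro i j
    rw [← sub_eq_zero]
    refine hf _ (A.NA_bracket (hY i) (hY j)) fun k => ?_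
    obtain ⟨hMk, -⟩ := mot_of (M k).isMotive
    obtain ⟨Ni, hNi⟩ := hMk.st _ (hY i)
    obtain ⟨Nj, hNj⟩ := hMk.st _ (hY j)
    by_cases hik : k = i
    · by_cases hjk : k = j
      · rw [← hik, ← hjk, sub_self]
        exact acts_zero
      · have h1 := acts_mul (acts_iff.2 hNi) (hY2 j k hjk)
        rwa [zero_mul, mul_zero, sub_self] at h1
    · have h1 := acts_mul (hY2 i k hik) (acts_iff.2 hNj)
      rwa [zero_mul, mul_zero, sub_self] at h1
  have hYX : ∀ i, Y i * X = X * Y i := by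
    intro i
    rw [← sub_eq_zero]
    refine hf _ (A.NA_bracket (hY i) hX.1) fun k => ?_
    obtain ⟨hMk, -⟩ := mot_of (M k).isMotive
    obtain ⟨NX, hNX⟩ := hMk.st _ hX.1
    by_cases hik : k = i
    · have h1 : Acts (M k) (Y i) NX := by
        have h2 := acts_sub (acts_iff.2 hNX) (hik ▸ hY1 i : Acts (M k) (X - Y i) 0)
        rwa [sub_sub_cancel, sub_zero] at h2
      have h2 := acts_mul h1 (acts_iff.2 hNX)
      rwa [sub_self] at h2
    · have h1 := acts_mul (hY2 i k hik) (acts_iff.2 hNX)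
      rwa [zero_mul, mul_zero, sub_self] at h1
  let Φ : (Fin N → ℚ) →ₗ[ℚ] EndQ A := Fintype.linearCombination ℚ Y
  have hΦ : ∀ q, Φ q = ∑ j, q j • Y j := fun q => Fintype.linearCombination_apply ℚ Y q
  obtain ⟨𝔱, ht⟩ : ∃ 𝔱, 𝔱 = LinearMap.range Φ := ⟨_, rfl⟩
  have hYt : ∀ i, Y i ∈ 𝔱 := by
    intro i
    rw [ht]
    refine ⟨Pi.single i 1, ?_⟩
    rw [hΦ, Finset.sum_eq_single i]
    · rw [Pi.single_eq_same, one_smul]
    · intro j _ hj
      rw [Pi.single_eq_of_ne hj, zero_smul]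
    · intro h
      exact absurd (Finset.mem_univ _) h
  have htN : 𝔱 ≤ A.NA := by
    rw [ht]
    rintro _ ⟨q, rfl⟩
    rw [hΦ]
    exact Submodule.sum_mem _ fun j _ => Submodule.smul_mem _ _ (hY j)
  have htc : ∀ Z ∈ 𝔱, ∀ Z' : EndQ A, (∀ i, Y i * Z' = Z' * Y i) → Z * Z' = Z' * Z := by
    intro Z hZ Z' hZ'
    rw [ht] at hZ
    obtain ⟨q, rfl⟩ := hZ
    rw [hΦ, Finset.sum_mul, Finset.mul_sum]
    refine Finset.sum_congr rfl fun j _ => ?_
    rw [smul_mul_assoc, mul_smul_comm, hZ']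
  have h1 := bound_cpt (V := V) hX htN (fun Z hZ Z' hZ' => htc Z hZ Z' fun i =>
    (htc Z' hZ' (Y i) fun j => hYc j i).symm) (fun Z hZ => htc Z hZ X hYX) (htN.trans hP) F
  have hker : ∀ i, (𝔱 ⊓ ker0 (M i) : Submodule ℚ (EndQ A)) ≤ 𝔱 := fun i => inf_le_left
  have h2 : ∑ i, (finrank ℚ 𝔱 -
      finrank ℚ ((𝔱 ⊓ KK A V) ⊔ (𝔱 ⊓ ker0 (M i)) : Submodule ℚ (EndQ A))) +
      finrank ℚ (𝔱 ⊓ KK A V : Submodule ℚ (EndQ A)) ≤ finrank ℚ 𝔱 :=
    weight_bound (L := 𝔱) (K := 𝔱 ⊓ KK A V) inf_le_left (k := fun i => 𝔱 ⊓ ker0 (M i)) hker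
      fun Z hZ i => by
        rw [ht] at hZ
        obtain ⟨q, rfl⟩ := hZ
        refine ⟨q i • Y i, 𝔱.smul_mem _ (hYt i), ?_, fun j hj => ⟨𝔱.smul_mem _ (hYt i), ?_⟩⟩
        · have h3 : Φ q - q i • Y i = ∑ j ∈ Finset.univ.erase i, q j • Y j := by
            rw [hΦ, ← Finset.add_sum_erase _ _ (Finset.mem_univ i), add_sub_cancel_left]
          rw [h3]
          exact Submodule.sum_mem _ fun j hj => Submodule.smul_mem _ _
            ⟨hYt j, hY j, hY2 j i (Finset.ne_of_mem_erase hj).symm⟩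
        · exact Submodule.smul_mem _ _ ⟨hY i, hY2 i j hj⟩
  have h3 : S.card ≤ ∑ i, (finrank ℚ 𝔱 -
      finrank ℚ ((𝔱 ⊓ KK A V) ⊔ (𝔱 ⊓ ker0 (M i)) : Submodule ℚ (EndQ A))) := by
    rw [Finset.card_eq_sum_ones]
    refine (Finset.sum_le_sum fun i hi => ?_).trans (Finset.sum_le_sum_of_subset
      (Finset.subset_univ _))
    have h4 : ((𝔱 ⊓ KK A V) ⊔ (𝔱 ⊓ ker0 (M i)) : Submodule ℚ (EndQ A)) < 𝔱 := by
      refine lt_of_le_of_ne (sup_le inf_le_left inf_le_left) fun h5 => ?_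
      apply hXS i hi
      have h6 := hYt i
      rw [← h5] at h6
      have h9 : ((𝔱 ⊓ KK A V) ⊔ (𝔱 ⊓ ker0 (M i)) : Submodule ℚ (EndQ A)) ≤
          KK A V ⊔ ker0 (M i) := sup_le_sup inf_le_right inf_le_right
      have h7 : Y i ∈ KK A V ⊔ ker0 (M i) := h9 h6
      have h8 : X = Y i + (X - Y i) := by abel
      rw [h8]
      exact Submodule.add_mem _ h7 (Submodule.mem_sup_right
        ⟨A.NA.sub_mem hX.1 (hY i), hY1 i⟩)
    have h5 := Submodule.finrank_lt_finrank_of_lt h4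
    omega
  omega

/-- Structures with graded pieces of rank one. -/
theorem main_tate (hgood : Good A) {ℓ : ℕ} (F : Filtration V ℓ)
    (hF : F.halves = 0) (M : Motive A) : Splits V M :=
  splits_of_JC (JC_of_halves (fun r => NA_le_of_good hgood V (A.MA_le_NA (A.J_mem r)))
    F.zero F.top F.mono F.isSub hF)

/-- The split part. -/
theorem main_part {g d : ℕ} (A : AbVar g) (V : Structure d) :
    ∃ K : Sub A, SplitPart V K ∧
      (Good A → IsIdeal K ∧ ∀ 𝔱 : Sub A, InLieSpace 𝔱 → IsCompact 𝔱 → Bounded V K 𝔱) ∧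
      (HasAbelianCentre A → ∀ 𝔱 : Sub A, (∀ X, Mem 𝔱 X → InCentre A X) → Bounded V K 𝔱) := by
  refine ⟨KK A V, ⟨fun X hX => KK_NA V hX, isReplicaClosed_KK V, fun X hX M N hN t G hG hP => ?_⟩,
    fun hgood => ⟨fun X Y hX hY => KK_ideal V (NA_le_of_good hgood V hY) hX,
      fun 𝔱 ht hc ℓ F => bound_compact hc (fun X hX => NA_le_of_good hgood V (ht X hX)) F⟩,
    fun hcen 𝔱 ht ℓ F => ?_⟩
  · obtain ⟨hM, Wt, hW⟩ := mot_of M.isMotive
    exact exp_KK hM hW (ptV_of hG hP) hX (acts_iff.1 hN) t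
  · have h1 : 𝔱 ≤ A.CN := fun X hX => (V8H93.PM.inCentre_iff X).1 (ht X hX)
    exact bound_CN h1 (h1.trans (CN_le_of_centre hcen V)) F

end Pool.Agent.V8H93.CT

end
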